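import Pool.Agent.KRad.Min.Defs
import Pool.Agent.Hhelper2.Four

/-!
# Module M3: rigid characters and group extensions; local type
-/

namespace Pool.Agent.KRad

open Pool.Agent.Hhelper2 Pool.Agent.Hhelper2.QuadExt Pool.Agent.Hhelper2.Tower Additive Module
open Pool.Agent.Hhelper2.FieldAx

universe u

theorem zmod_two_cases (i : ZMod 2) : i = 0 ∨ i = 1 := by
  revert i; decide

theorem rigChar_of_rig {K : Type u} [Field K] (h2 : (2 : K) ≠ 0) [Finite (SqClass K)]
    (he : sqClass (-1 : Kˣ) = 1) (z : VV K) (hz : z ≠ 0) (hr : Rig K z) : ∃ g, RigChar K g := by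
  classical
  have hax := QStr.ofField_axioms K h2
  have : Fintype (QStr.ofField K).G := Fintype.ofFinite (SqClass K)
  have hneg : (QStr.ofField K).neg = 1 := he
  have hz1 : toMul z ≠ 1 := fun h => hz h
  have hsp : ∀ x : SqClass K, (QStr.ofField K).Split (toMul z) x ↔ x = 1 ∨ x = toMul z := by
    intro x
    constructor
    · intro h
      rcases hr (ofMul x) h with h1 | h1
      · exact Or.inl h1
      · right
        have h3 : x = sqClass (-1 : Kˣ) * toMul z := h1
        rw [h3, he, one_mul]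
    · rintro (h | h)
      · rw [h]; exact hax.one _
      · have h3 := hax.neg (toMul z)
        rw [hneg, one_mul] at h3
        rw [h]; exact h3
  have hbi : (QStr.ofField K).Birigid (toMul z) := by
    refine ⟨hz1, by rw [hneg]; exact hz1, ?_, ?_⟩
    · intro x
      rw [hneg, one_mul]
      exact hsp x
    · intro x
      rw [hneg, one_mul]
      exact hsp x
  let B : AddSubgroup (VV K) := Subgroup.toAddSubgroup hax.B
  let W : Submodule (ZMod 2) (VV K) := AddSubgroup.toZModSubmodule 2 B
  have hzW : z ∉ W := fun h => h hbi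
  obtain ⟨g, hg1, hg2⟩ := Submodule.exists_le_ker_of_notMem hzW
  have hnegW : (ofMul (sqClass (-1 : Kˣ)) : VV K) ∈ W := hax.neg_mem_B
  refine ⟨g, ?_, hg2 hnegW, ?_⟩
  · rintro rfl
    exact hg1 rfl
  · intro x hx y hxy
    have hxW : x ∉ W := by
      intro h
      have h3 : g x = 0 := hg2 h
      rw [hx] at h3
      exact one_ne_zero h3
    have hbx : (QStr.ofField K).Birigid (toMul x) := by
      by_contra h
      exact hxW h
    rcases (hbx.2.2.1 (toMul y)).1 hxy with h | h
    · exact Or.inl h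
    · exact Or.inr h

/-- the structure of a field in terms of a symbol -/
noncomputable def isoStr {K : Type u} [Field K] {Q : Type u} [AddCommGroup Q] [Module (ZMod 2) Q]
    (β : VV K →ₗ[ZMod 2] VV K →ₗ[ZMod 2] Q) (hβ : ∀ x y, β x y = 0 ↔ Sp K x y) :
    (QStr.ofField K).Iso (SmallEl.str β (ofMul (sqClass (-1 : Kˣ)))) where
  e :=
    { toFun := fun x => Multiplicative.ofAdd (ofMul x)
      invFun := fun x => toMul (Multiplicative.toAdd x)
      left_inv := fun _ => rfl
      right_inv := fun _ => rfl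
      map_mul' := fun _ _ => rfl }
  map_neg := rfl
  map_split a b := (hβ (ofMul a) (ofMul b)).symm

theorem ext_of_rigChar {K : Type u} [Field K] (h2 : (2 : K) ≠ 0) [Finite (SqClass K)]
    (g : VV K →ₗ[ZMod 2] ZMod 2) (hg : RigChar K g) :
    ∃ S : QStr.{u}, Nonempty ((QStr.ofField K).Iso S.ext) := by
  have hax := QStr.ofField_axioms K h2
  obtain ⟨Q, _, _, _, β, hβ, symm, -⟩ := exists_symbol K h2
  obtain ⟨t, ht⟩ : ∃ t, g t = 1 := by
    by_contra hcon
    push Not at hcon
    apply hg.ne
    ext x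
    rcases zmod_two_cases (g x) with h | h
    · rw [h]; rfl
    · exact absurd h (hcon x)
  have he : ∀ x : VV K, β x x = β x (ofMul (sqClass (-1 : Kˣ))) := by
    intro x
    have h3 : β x (ofMul (sqClass (-1 : Kˣ)) + x) = 0 := (hβ _ _).2 (hax.neg (toMul x))
    rw [map_add] at h3
    have h4 : β x x = β x (ofMul (sqClass (-1 : Kˣ))) := by
      have h5 := Codim.eq_of_add_eq_zero h3
      exact h5.symm
    exact h4
  obtain ⟨iso⟩ := SmallEl.ext_iso symm (ofMul (sqClass (-1 : Kˣ))) he g t ht hg.neg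
    (by
      intro s hs hs0 y hy
      rcases zmod_two_cases (g y) with h | h
      · exact h
      · exfalso
        have h3 : Sp K y s := sp_symm h2 ((hβ _ _).1 hy)
        rcases hg.rig y h s h3 with h4 | h4
        · exact hs0 h4
        · rw [h4, map_add, hg.neg, h, zero_add] at hs
          exact one_ne_zero hs)
    (by
      intro a ha y hy
      exact hg.rig a ha y ((hβ _ _).1 hy))
  exact ⟨_, ⟨(isoStr β hβ).trans iso⟩⟩

theorem rigChar_of_ext {K : Type u} [Field K] (h2 : (2 : K) ≠ 0) [Finite (SqClass K)]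
    (S : QStr.{u}) (f : (QStr.ofField K).Iso S.ext) : ∃ g, RigChar K g := by
  let g0 : VV K →+ ZMod 2 :=
    { toFun := fun x => Multiplicative.toAdd
        ((f.e (toMul x) : S.G × Multiplicative (ZMod 2))).2
      map_zero' := by
        change Multiplicative.toAdd ((f.e (1 : SqClass K) : S.G × Multiplicative (ZMod 2))).2 = 0
        have h3 : f.e (1 : SqClass K) = 1 := map_one f.e
        rw [h3]
        rfl
      map_add' := by
        intro x y
        change Multiplicative.toAdd
          ((f.e ((toMul x : SqClass K) * toMul y) : S.G × Multiplicative (ZMod 2))).2 = _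
        have h3 : f.e ((toMul x : SqClass K) * toMul y) = f.e (toMul x) * f.e (toMul y) :=
          map_mul f.e _ _
        rw [h3]
        rfl }
  let g : VV K →ₗ[ZMod 2] ZMod 2 := g0.toZModLinearMap 2
  have hg : ∀ x : VV K, g x = Multiplicative.toAdd
        ((f.e (toMul x) : S.G × Multiplicative (ZMod 2))).2 := fun _ => rfl
  refine ⟨g, ?_, ?_, ?_⟩
  · intro h
    have h3 := hg (ofMul (f.e.symm ((1, Multiplicative.ofAdd 1) : S.G × Multiplicative (ZMod 2))))
    have h4 : f.e (f.e.symm ((1, Multiplicative.ofAdd 1) : S.G × Multiplicative (ZMod 2))) =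
      ((1, Multiplicative.ofAdd 1) : S.G × Multiplicative (ZMod 2)) := f.e.apply_symm_apply _
    rw [h] at h3
    have h5 : (0 : ZMod 2) = Multiplicative.toAdd ((f.e (f.e.symm
      ((1, Multiplicative.ofAdd 1) : S.G × Multiplicative (ZMod 2))) :
        S.G × Multiplicative (ZMod 2))).2 := h3
    rw [h4] at h5
    exact zero_ne_one h5
  · rw [hg]
    have h3 : f.e (sqClass (-1 : Kˣ)) = ((S.neg, 1) : S.G × Multiplicative (ZMod 2)) := f.map_neg
    change Multiplicative.toAdd
        ((f.e (sqClass (-1 : Kˣ)) : S.G × Multiplicative (ZMod 2))).2 = 0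
    rw [h3]
    rfl
  · intro x hx y hxy
    rw [hg] at hx
    have hx1 : ((f.e (toMul x) : S.G × Multiplicative (ZMod 2))).2 ≠ 1 := by
      intro h
      rw [h] at hx
      exact zero_ne_one hx
    have h3 : S.ext.Split (f.e (toMul x)) (f.e (toMul y)) := (f.map_split _ _).1 hxy
    rcases h3 with h | h | h | h
    · exact absurd h.1 hx1
    · exfalso
      apply hx1
      rw [h]
      rfl
    · left
      have h4 : toMul y = 1 := f.e.injective (h.trans (map_one f.e).symm)
      exact h4
    · right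
      obtain ⟨-, hy1, h5⟩ := h
      have key : ∀ i : Multiplicative (ZMod 2), i ≠ 1 → i = Multiplicative.ofAdd 1 := by decide
      have h6 : f.e (toMul y) = f.e (sqClass (-1 : Kˣ) * toMul x) := by
        have h7 : f.e (sqClass (-1 : Kˣ) * toMul x) = f.e (sqClass (-1 : Kˣ)) * f.e (toMul x) :=
          map_mul f.e _ _
        have h8 : f.e (sqClass (-1 : Kˣ)) = ((S.neg, 1) : S.G × Multiplicative (ZMod 2)) :=
          f.map_neg
        rw [h7, h8]
        refine Prod.ext h5 ?_
        change _ = (1 : Multiplicative (ZMod 2)) * (f.e (toMul x)).2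
        rw [one_mul, key _ hy1, key _ hx1]
      exact f.e.injective h6

theorem isLocal_of_locT {K : Type u} [Field K] (h2 : (2 : K) ≠ 0) [Finite (SqClass K)]
    (hK : LocT K) : (QStr.ofField K).IsLocal := by
  have hax := QStr.ofField_axioms K h2
  obtain ⟨Q, _, _, _, β, hβ, symm, -⟩ := exists_symbol K h2
  refine ⟨hax.sq, hax.symm, hax.one, hax.neg, hax.mul, ?_, ?_⟩
  · change ∀ a b c : SqClass K, ¬ FieldSplit K a b → ¬ FieldSplit K a c → FieldSplit K a (b * c)
    intro a b c hb hc
    have ha : (ofMul a : VV K) ≠ 0 := by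
      intro h
      have h3 : a = 1 := h
      rw [h3] at hb
      exact hb (hax.symm _ _ (hax.one b))
    have h1 := hK (ofMul a) ha
    rw [sv_eq_finrank_range β hβ] at h1
    have hb' : β (ofMul a) (ofMul b) ≠ 0 := fun h => hb ((hβ _ _).1 h)
    have hc' : β (ofMul a) (ofMul c) ≠ 0 := fun h => hc ((hβ _ _).1 h)
    obtain ⟨k, hk⟩ := (finrank_eq_one_iff_of_nonzero'
      (⟨β (ofMul a) (ofMul b), ⟨_, rfl⟩⟩ : LinearMap.range (β (ofMul a)))
      (fun h => hb' (congrArg Subtype.val h))).1 h1 ⟨β (ofMul a) (ofMul c), ⟨_, rfl⟩⟩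
    have hk' : k • β (ofMul a) (ofMul b) = β (ofMul a) (ofMul c) := congrArg Subtype.val hk
    have hk1 : k = 1 := by
      rcases zmod_two_cases k with h | h
      · rw [h, zero_smul] at hk'
        exact absurd hk'.symm hc'
      · exact h
    rw [hk1, one_smul] at hk'
    apply (hβ (ofMul a) (ofMul b + ofMul c)).1
    rw [map_add, hk', Codim.add_self]
  · change ∀ a : SqClass K, a ≠ 1 → ∃ b : SqClass K, ¬ FieldSplit K a b
    intro a ha
    by_contra hcon
    push Not at hcon
    have h1 := hK (ofMul a) ha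
    have h3 : sv K (ofMul a) = 0 := (sv_eq_zero_iff h2 (ofMul a)).2 (fun y => hcon (toMul y))
    omega

theorem locT_of_isLocal {K : Type u} [Field K] (h2 : (2 : K) ≠ 0) [Finite (SqClass K)]
    (hK : (QStr.ofField K).IsLocal) : LocT K := by
  obtain ⟨Q, _, _, _, β, hβ, symm, -⟩ := exists_symbol K h2
  intro x hx
  rw [sv_eq_finrank_range β hβ]
  obtain ⟨b, hb⟩ : ∃ b : SqClass K, ¬ FieldSplit K (toMul x) b := hK.nondeg (toMul x) hx
  have hb' : β x (ofMul b) ≠ 0 := fun h => hb ((hβ x (ofMul b)).1 h)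
  refine finrank_eq_one (⟨β x (ofMul b), ⟨_, rfl⟩⟩ : LinearMap.range (β x))
    (fun h => hb' (congrArg Subtype.val h)) ?_
  rintro ⟨_, y, rfl⟩
  by_cases hy : β x y = 0
  · refine ⟨0, Subtype.ext ?_⟩
    rw [zero_smul]
    exact hy.symm
  · refine ⟨1, Subtype.ext ?_⟩
    rw [one_smul]
    have h3 : β x (ofMul b + y) = 0 :=
      (hβ _ _).2 (hK.index (toMul x) b (toMul y) hb (fun h => hy ((hβ x y).2 h)))
    rw [map_add] at h3
    exact Codim.eq_of_add_eq_zero h3

end Pool.Agent.KRad
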