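import Pool.Agent.KRad.Min.P3
import Pool.Agent.KRad.Min.ExtIso
import Pool.Agent.GoReal.Defs

/-!
# Going down: local type or group extension, from a quadratic extension to the base field
(`-1` a square)
-/

namespace Pool.Agent.KRad

open Pool.Agent.Hhelper2 Pool.Agent.Hhelper2.QuadExt Pool.Agent.Hhelper2.Tower Additive Module
open Pool.Agent.Hhelper2.FieldAx Pool.Agent.GoReal

universe u

/-- A rigid class different from `1` and `-1` is birigid when `-1` is a square. -/
theorem locExt_of_rig {K : Type u} [Field K] (h2 : (2 : K) ≠ 0) [Finite (SqClass K)]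
    (he : sqClass (-1 : Kˣ) = 1) {v : VV K} (hv : v ≠ 0) (hr : Rig K v) : LocExt K := by
  have hee : ee K = 0 := he
  right
  refine ⟨toMul v, ?_⟩
  rw [birigid_iff']
  have key : ∀ y, Sp K v y ↔ y = 0 ∨ y = ee K + v := by
    intro y
    constructor
    · exact hr y
    · rintro (rfl | rfl)
      · exact sp_zero_right h2 v
      · rw [add_comm]; exact sp_neg h2 v
  refine ⟨hv, by rwa [hee], key, ?_⟩
  intro y
  rw [hee, zero_add, key, hee, zero_add]

theorem neg_one_ext {K E : Type u} [Field K] [Field E] [Algebra K E]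
    (he : sqClass (-1 : Kˣ) = 1) : sqClass (-1 : Eˣ) = 1 := by
  rw [one_iff] at he ⊢
  obtain ⟨t, ht⟩ := he
  refine ⟨algebraMap K E t, ?_⟩
  rw [← map_pow, ← ht]
  simp

/-- Going down for quadratic extensions, `-1` a square. -/
theorem locExt_down {K E : Type u} [Field K] [Field E] [Algebra K E] (h2 : (2 : K) ≠ 0)
    [Finite (SqClass K)] (he : sqClass (-1 : Kˣ) = 1) (hfin : finrank K E = 2) (hK : Conn K)
    (hE : LocExt E) : LocExt K := by
  obtain ⟨a, α, hα, hns⟩ := exists_sqrt (K := K) (E := E) h2 hfin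
  obtain ⟨q, hq, -⟩ := exists_QL h2 hfin a α hα hns
  have ha : sqClass a ≠ 1 := fun h => hns ((one_iff a).1 h)
  have he' : sqClass (-1 : Eˣ) = 1 := neg_one_ext he
  have := finite_ext q.toQE
  rcases hE with hE | ⟨t, ht⟩
  · left
    exact isLocal_of_locT h2 (p3b q h2 he ha (fun x hx => hK.radical h2 hx)
      (locT_of_isLocal q.two_ne hE))
  · have ht' : (QStr.ofField E).Birigid (toMul (ofMul t)) := ht
    rw [birigid_iff'] at ht'
    obtain ⟨g, hg⟩ := rigChar_of_rig q.two_ne he' (ofMul t) ht'.1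
      (fun y hy => (ht'.2.2.1 y).1 hy)
    obtain ⟨v, hv, hr⟩ := p3a q (fun y w => by rw [hq]; exact lemmaS h2 hfin y w) h2 he he' ha g hg
    exact locExt_of_rig h2 he hv hr

/-- Going down for towers of quadratic extensions, `-1` a square. -/
theorem locExt_down_tower (F : Type u) [Field F] (h2 : (2 : F) ≠ 0) (hf : Finite (SqClass F))
    (he : sqClass (-1 : Fˣ) = 1) (hF : Conn F) (E : Type u) [Field E] (h : QuadTower F E)
    (hE : LocExt E) : LocExt F := by
  have key : ∀ (E : Type u) [Field E], QuadTower F E → sqClass (-1 : Eˣ) = 1 ∧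
      (LocExt E → LocExt F) := by
    intro E _ h
    induction h with
    | base => exact ⟨he, id⟩
    | step K E hK hfin ih =>
      obtain ⟨i1, i2, i3, -⟩ := quadTower F h2 hf K hK
      exact ⟨neg_one_ext ih.1, fun hE => ih.2 (locExt_down i1 ih.1 hfin (i3 hF) hE)⟩
  exact (key E h).2 hE

end Pool.Agent.KRad
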