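import Pool.Agent.KRad.Min.TRigC

/-!
# The case of bad elements

A bad element gives a valuation ring with residue field of characteristic two in which the bad
element is not a square; this contradicts the finiteness of the number of square classes.
-/

namespace Pool.Agent.KRad

variable {F : Type*} [Field F] {T : F → Prop}

namespace BadCase

/-- Small elements which are not in the class of `1` or `z`. -/
def W (T : F → Prop) (z x : F) : Prop := Sml T x ∧ ¬ T (x * z)

/-- The group generated by `T` and `z`. -/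
def Hc (T : F → Prop) (z x : F) : Prop := T x ∨ T (x * z)

/-- Units. -/
def U (T : F → Prop) (z x : F) : Prop :=
  x ≠ 0 ∧ Hc T z x ∧ ∀ h, W T z h → W T z (x * h) ∧ W T z (h / x)

/-- The maximal ideal. -/
def M (T : F → Prop) (z x : F) : Prop :=
  x = 0 ∨ W T z x ∨ (x ≠ 0 ∧ Hc T z x ∧ ∃ h, W T z h ∧ W T z (x / h))

variable {z : F} (H : TRig T) (hz : Bad T z)
include H hz

theorem z0 : z ≠ 0 := hz.1.1

theorem w_div {h : F} (hh : W T z h) : W T z (h / z) := by
  refine ⟨hz.2 h hh.1 hh.2, ?_⟩
  rw [div_mul_cancel₀ _ hz.1.1]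
  exact hh.1.2.1

theorem w_mul {h : F} (hh : W T z h) : W T z (h * z) := by
  refine ⟨H.l1 hh.1 hz.1 hh.2, fun h3 => hh.1.2.1 ?_⟩
  have e : h * z * z = h * z ^ 2 := by ring
  rw [e] at h3
  exact H.of_mul' (H.sq hz.1.1) h3

theorem w_neg {h : F} (hh : W T z h) : W T z (-h) := by
  refine ⟨H.small_neg hh.1 (fun hb => hh.2 (H.bad_unique hb hz)), fun h3 => hh.2 ?_⟩
  have h4 := H.neg' h3
  have e : -(-h * z) = h * z := by ring
  rwa [e] at h4

theorem w_l2 {h u : F} (hh : W T z h) (hu : W T z u) :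
    W T z (h * (1 - u)) ∧ W T z (h / (1 - u)) := by
  have h1u : (1 - u) ≠ 0 := H.ne hu.1.2.2
  have hz0 := hz.1.1
  have c1 : ¬ T (h * (1 - u) * z) := by
    intro h3
    apply hh.2
    have h4 := H.div h3 hu.1.2.2
    have e : h * (1 - u) * z / (1 - u) = h * z := by field_simp
    rwa [e] at h4
  have c2 : ¬ T (h / (1 - u) * z) := by
    intro h3
    apply hh.2
    have h4 := H.mul h3 hu.1.2.2
    have e : h / (1 - u) * z * (1 - u) = h * z := by field_simp
    rwa [e] at h4
  by_cases hhu : T (h * u)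
  · have h3 := w_div H hz hh
    have h4 : ¬ T (h / z * u) := by
      intro h5
      apply hz.1.2.1
      have h6 := H.div hhu h5
      have hh0 := hh.1.1
      have hu0 := hu.1.1
      have e : h * u / (h / z * u) = z := by field_simp
      rwa [e] at h6
    have h5 := H.l2 h3.1 hu.1 h4
    have hh0 := hh.1.1
    constructor
    · have h6 : W T z (h / z * (1 - u)) := by
        refine ⟨h5.1, fun h7 => hh.1.2.1 ?_⟩
        have h8 := H.div h7 hu.1.2.2
        have e : h / z * (1 - u) * z / (1 - u) = h := by field_simp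
        rwa [e] at h8
      have h7 := w_mul H hz h6
      have e : h / z * (1 - u) * z = h * (1 - u) := by field_simp
      rwa [e] at h7
    · have h6 : W T z (h / z / (1 - u)) := by
        refine ⟨h5.2, fun h7 => hh.1.2.1 ?_⟩
        have h8 := H.mul h7 hu.1.2.2
        have e : h / z / (1 - u) * z * (1 - u) = h := by field_simp
        rwa [e] at h8
      have h7 := w_mul H hz h6
      have e : h / z / (1 - u) * z = h / (1 - u) := by field_simp
      rwa [e] at h7
  · have h3 := H.l2 hh.1 hu.1 hhu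
    exact ⟨⟨h3.1, c1⟩, ⟨h3.2, c2⟩⟩

omit hz in
theorem hc_mul {x y : F} (hx : Hc T z x) (hy : Hc T z y) : Hc T z (x * y) := by
  rcases hx with hx | hx <;> rcases hy with hy | hy
  · exact Or.inl (H.mul hx hy)
  · right
    rw [mul_assoc]
    exact H.mul hx hy
  · right
    have e : x * y * z = x * z * y := by ring
    rw [e]
    exact H.mul hx hy
  · left
    have h3 : T (z * y) := by rwa [mul_comm]
    exact H.trans hx h3

omit hz in
theorem hc_inv {x : F} (hx : Hc T z x) : Hc T z x⁻¹ := by
  rcases hx with hx | hx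
  · exact Or.inl (H.inv hx)
  · right
    have hx0 : x ≠ 0 := left_ne_zero_of_mul (H.ne hx)
    have h3 := H.div hx (H.sq hx0)
    have e : x * z / x ^ 2 = x⁻¹ * z := by field_simp
    rwa [e] at h3

omit H hz in
theorem w_not {x : F} (hx : W T z x) : ¬ Hc T z x := by
  rintro (h | h)
  · exact hx.1.2.1 h
  · exact hx.2 h

omit H hz in
theorem w0 {x : F} (hx : W T z x) : x ≠ 0 := hx.1.1

/-- Elements outside `H`. -/
theorem w_s0 {x : F} (hx0 : x ≠ 0) (hx : ¬ Hc T z x) : W T z x ∨ W T z x⁻¹ := by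
  unfold Hc at hx
  push Not at hx
  rcases H.s0 hx0 hx.1 with h | h
  · exact Or.inl ⟨h, hx.2⟩
  · refine Or.inr ⟨h, fun h3 => hx.2 ?_⟩
    have h4 := H.mul h3 (H.sq hx0)
    have e : x⁻¹ * z * x ^ 2 = x * z := by field_simp
    rwa [e] at h4

theorem w_prod {h g : F} (hh : W T z h) (hg : W T z g) (hn : ¬ Hc T z (h * g)) :
    W T z (h * g) := by
  unfold Hc at hn
  push Not at hn
  exact ⟨H.l1 hh.1 hg.1 hn.1, hn.2⟩

theorem m_prod {h g : F} (hh : W T z h) (hg : W T z g) : M T z (h * g) := by
  by_cases hn : Hc T z (h * g)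
  · right; right
    refine ⟨mul_ne_zero (w0 hh) (w0 hg), hn, h, hh, ?_⟩
    have := w0 hh
    rw [mul_div_cancel_left₀ _ this]
    exact hg
  · exact Or.inr (Or.inl (w_prod H hz hh hg hn))

theorem u_mul {u v : F} (hu : U T z u) (hv : U T z v) : U T z (u * v) := by
  have hu0 := hu.1
  have hv0 := hv.1
  refine ⟨mul_ne_zero hu.1 hv.1, hc_mul H hu.2.1 hv.2.1, fun h hh => ⟨?_, ?_⟩⟩
  · rw [mul_assoc]
    exact (hu.2.2 _ (hv.2.2 _ hh).1).1
  · have h3 := (hv.2.2 _ (hu.2.2 _ hh).2).2
    have e : h / u / v = h / (u * v) := by field_simp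
    rwa [e] at h3

theorem u_inv {u : F} (hu : U T z u) : U T z u⁻¹ := by
  have hu0 := hu.1
  refine ⟨inv_ne_zero hu0, hc_inv H hu.2.1, fun h hh => ⟨?_, ?_⟩⟩
  · have h3 := (hu.2.2 _ hh).2
    have e : h / u = u⁻¹ * h := by field_simp
    rwa [e] at h3
  · have h3 := (hu.2.2 _ hh).1
    have e : h / u⁻¹ = u * h := by field_simp
    rw [e]
    exact h3

theorem u_one : U T z 1 :=
  ⟨one_ne_zero, Or.inl H.one, fun h hh => ⟨by rwa [one_mul], by rwa [div_one]⟩⟩

theorem u_neg_one : U T z (-1) := by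
  refine ⟨neg_ne_zero.2 one_ne_zero, Or.inl H.neg, fun h hh => ⟨?_, ?_⟩⟩
  · rw [neg_one_mul]
    exact w_neg H hz hh
  · have e : h / (-1) = -h := by field_simp
    rw [e]
    exact w_neg H hz hh

theorem u_z : U T z z := by
  refine ⟨hz.1.1, Or.inr ?_, fun h hh => ⟨?_, w_div H hz hh⟩⟩
  · have := H.sq hz.1.1
    rwa [pow_two] at this
  · rw [mul_comm]
    exact w_mul H hz hh

theorem u_pow {u : F} (hu : U T z u) (n : ℕ) : U T z (u ^ n) := by
  induction n with
  | zero => rw [pow_zero]; exact u_one H hz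
  | succ n ih => rw [pow_succ]; exact u_mul H hz ih hu

theorem m_mul_u {x u : F} (hx : M T z x) (hu : U T z u) : M T z (x * u) := by
  rcases hx with rfl | hx | ⟨hx0, hxH, h, hh, hg⟩
  · left; rw [zero_mul]
  · right; left
    rw [mul_comm]
    exact (hu.2.2 _ hx).1
  · right; right
    refine ⟨mul_ne_zero hx0 hu.1, hc_mul H hxH hu.2.1, h, hh, ?_⟩
    have h3 := (hu.2.2 _ hg).1
    have e : u * (x / h) = x * u / h := by ring
    rwa [e] at h3

theorem m_neg {x : F} (hx : M T z x) : M T z (-x) := by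
  have := m_mul_u H hz hx (u_neg_one H hz)
  rwa [mul_neg_one] at this

/-- One units. -/
theorem one_sub {x : F} (hx : M T z x) : T (1 - x) ∧ U T z (1 - x) := by
  have key : ∀ {x : F}, W T z x → T (1 - x) ∧ U T z (1 - x) := by
    intro x hx
    refine ⟨hx.1.2.2, H.ne hx.1.2.2, Or.inl hx.1.2.2, fun h hh => ?_⟩
    have h3 := w_l2 H hz hh hx
    rw [mul_comm]
    exact h3
  rcases hx with rfl | hx | ⟨hx0, hxH, h, hh, hg⟩
  · rw [sub_zero]
    exact ⟨H.one, u_one H hz⟩
  · exact key hx
  · have hh0 := w0 hh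
    have h3 := w_neg H hz (w_l2 H hz (w_l2 H hz hh hg).1 hh).2
    have k1 := key hh
    have k2 := key h3
    have n1 := H.ne k1.1
    have e : (1 - h) * (1 - -(h * (1 - x / h) / (1 - h))) = 1 - x := by
      field_simp; ring
    rw [← e]
    exact ⟨H.mul k1.1 k2.1, u_mul H hz k1.2 k2.2⟩

theorem u_not_m {u : F} (hu : U T z u) (hm : M T z u) : False := by
  rcases hm with h | h | ⟨-, -, h, hh, hg⟩
  · exact hu.1 h
  · exact w_not h hu.2.1
  · have h3 := (hu.2.2 _ hh).2
    have e : h / u = (u / h)⁻¹ := by rw [inv_div]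
    rw [e] at h3
    exact H.s0' hg.1 h3.1

/-- Trichotomy. -/
theorem tri {x : F} (hx0 : x ≠ 0) : M T z x ∨ U T z x ∨ M T z x⁻¹ := by
  by_cases hxH : Hc T z x
  · by_cases hu : U T z x
    · exact Or.inr (Or.inl hu)
    · have h3 : ∃ h, W T z h ∧ (¬ W T z (x * h) ∨ ¬ W T z (h / x)) := by
        by_contra hcon
        push Not at hcon
        exact hu ⟨hx0, hxH, fun h hh => hcon h hh⟩
      obtain ⟨h, hh, h3⟩ := h3
      have hh0 := w0 hh
      have nH : ∀ {y : F}, Hc T z y → ¬ Hc T z (y * h) := by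
        intro y hy h4
        apply w_not hh
        have hy0 : y ≠ 0 := by
          rcases hy with h5 | h5
          · exact H.ne h5
          · exact left_ne_zero_of_mul (H.ne h5)
        have h5 := hc_mul H (hc_inv H hy) h4
        rwa [inv_mul_cancel_left₀ hy0] at h5
      rcases h3 with h3 | h3
      · right; right
        have h4 := (w_s0 H hz (mul_ne_zero hx0 hh0) (nH hxH)).resolve_left h3
        right; right
        refine ⟨inv_ne_zero hx0, hc_inv H hxH, h, hh, ?_⟩
        have e : (x * h)⁻¹ = x⁻¹ / h := by field_simp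
        rwa [e] at h4
      · left; right; right
        refine ⟨hx0, hxH, h, hh, ?_⟩
        have e : x⁻¹ * h = h / x := by field_simp
        have h4 := (w_s0 H hz (div_ne_zero hh0 hx0) (by
          rw [← e]
          exact nH (hc_inv H hxH))).resolve_left h3
        rwa [inv_div] at h4
  · rcases w_s0 H hz hx0 hxH with h | h
    · exact Or.inl (Or.inr (Or.inl h))
    · exact Or.inr (Or.inr (Or.inr (Or.inl h)))

/-- The part of the maximal ideal in `H` stabilizes `W`. -/
theorem w_mul_m {x y : F} (hx : W T z x) (hyH : Hc T z y) {h : F} (hh : W T z h)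
    (hg : W T z (y / h)) : W T z (x * y) := by
  have hh0 := w0 hh
  have hz0 := hz.1.1
  have hx0 := w0 hx
  have key : ∀ {g' : F}, W T z g' → Hc T z (h * g') → ¬ T (h * g') → W T z (x * (h * g')) := by
    intro g' hg' hH hn
    have h3 : Sml T (h * g') := H.l1 hh.1 hg'.1 hn
    have h4 : ¬ Hc T z (x * (h * g')) := by
      intro h5
      apply w_not hx
      have hg0 := w0 hg'
      have h6 := hc_mul H h5 (hc_inv H hH)
      have e : x * (h * g') * (h * g')⁻¹ = x := by field_simp
      rwa [e] at h6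
    unfold Hc at h4
    push Not at h4
    exact ⟨H.l1 hx.1 h3 h4.1, h4.2⟩
  have e1 : h * (y / h) = y := by field_simp
  by_cases hT : T y
  · have h3 : W T z (y / h * z) := w_mul H hz hg
    have e2 : h * (y / h * z) = y * z := by field_simp
    have h4 := key h3 (by
      rw [e2]
      right
      have e3 : y * z * z = y * z ^ 2 := by ring
      rw [e3]
      exact H.mul hT (H.sq hz0)) (by
      rw [e2]
      intro h5
      exact hz.1.2.1 (H.of_mul hT h5))
    rw [e2] at h4
    have h5 := w_div H hz h4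
    have e3 : x * (y * z) / z = x * y := by field_simp
    rwa [e3] at h5
  · have h4 := key hg (by rw [e1]; exact hyH) (by rw [e1]; exact hT)
    rwa [e1] at h4

theorem m_mul {x y : F} (hx : M T z x) (hy : M T z y) : M T z (x * y) := by
  rcases hx with rfl | hx | ⟨hx0, hxH, h, hh, hg⟩
  · left; rw [zero_mul]
  · rcases hy with rfl | hy | ⟨hy0, hyH, h', hh', hg'⟩
    · left; rw [mul_zero]
    · exact m_prod H hz hx hy
    · exact Or.inr (Or.inl (w_mul_m H hz hx hyH hh' hg'))
  · rcases hy with rfl | hy | ⟨hy0, hyH, h', hh', hg'⟩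
    · left; rw [mul_zero]
    · right; left
      rw [mul_comm]
      exact w_mul_m H hz hy hxH hh hg
    · have h3 := w_mul_m H hz hg hyH hh' hg'
      have h4 := m_prod H hz hh h3
      have hh0 := w0 hh
      have e : h * (x / h * y) = x * y := by field_simp
      rwa [e] at h4

theorem one_add_u {t : F} (ht : U T z t) : M T z (1 + t) ∨ U T z (1 + t) := by
  by_cases h0 : 1 + t = 0
  · left; left; exact h0
  rcases tri H hz h0 with h | h | h
  · exact Or.inl h
  · exact Or.inr h
  · exfalso
    have h3 := (one_sub H hz h).2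
    have h4 := m_mul_u H hz h ht
    have e : (1 + t)⁻¹ * t = 1 - (1 + t)⁻¹ := by field_simp; ring
    rw [e] at h4
    exact u_not_m H hz h3 h4

theorem m_add {x y : F} (hx : M T z x) (hy : M T z y) : M T z (x + y) := by
  by_cases hx0 : x = 0
  · rw [hx0, zero_add]; exact hy
  by_cases hy0 : y = 0
  · rw [hy0, add_zero]; exact hx
  rcases tri H hz (div_ne_zero hy0 hx0) with h | h | h
  · have h3 := (one_sub H hz (m_neg H hz h)).2
    have h4 := m_mul_u H hz hx h3
    have e : x * (1 - -(y / x)) = x + y := by field_simp; ring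
    rwa [e] at h4
  · have e : x * (1 + y / x) = x + y := by field_simp
    rw [← e]
    rcases one_add_u H hz h with h3 | h3
    · exact m_mul H hz hx h3
    · exact m_mul_u H hz hx h3
  · rw [inv_div] at h
    have h3 := (one_sub H hz (m_neg H hz h)).2
    have h4 := m_mul_u H hz hy h3
    have e : y * (1 - -(x / y)) = x + y := by field_simp; ring
    rwa [e] at h4

omit H hz in
/-- The valuation ring. -/
def O (T : F → Prop) (z x : F) : Prop := M T z x ∨ U T z x

theorem o_mul {x y : F} (hx : O T z x) (hy : O T z y) : O T z (x * y) := by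
  rcases hx with hx | hx <;> rcases hy with hy | hy
  · exact Or.inl (m_mul H hz hx hy)
  · exact Or.inl (m_mul_u H hz hx hy)
  · left
    rw [mul_comm]
    exact m_mul_u H hz hy hx
  · exact Or.inr (u_mul H hz hx hy)

theorem o_neg {x : F} (hx : O T z x) : O T z (-x) := by
  rw [← neg_one_mul]
  exact o_mul H hz (Or.inr (u_neg_one H hz)) hx

theorem o_add {x y : F} (hx : O T z x) (hy : O T z y) : O T z (x + y) := by
  have mu : ∀ {x y : F}, M T z x → U T z y → U T z (x + y) := by
    intro x y hx hy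
    have hy0 := hy.1
    have h3 := (one_sub H hz (m_neg H hz (m_mul_u H hz hx (u_inv H hz hy)))).2
    have h4 := u_mul H hz hy h3
    have e : y * (1 - -(x * y⁻¹)) = x + y := by field_simp; ring
    rwa [e] at h4
  rcases hx with hx | hx <;> rcases hy with hy | hy
  · exact Or.inl (m_add H hz hx hy)
  · exact Or.inr (mu hx hy)
  · right
    rw [add_comm]
    exact mu hy hx
  · have hx0 := hx.1
    have e : x * (1 + y * x⁻¹) = x + y := by field_simp
    rw [← e]
    exact o_mul H hz (Or.inr hx) (one_add_u H hz (u_mul H hz hy (u_inv H hz hx)))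

theorem o_sub {x y : F} (hx : O T z x) (hy : O T z y) : O T z (x - y) := by
  rw [sub_eq_add_neg]
  exact o_add H hz hx (o_neg H hz hy)

theorem m_mul_o {x y : F} (hx : M T z x) (hy : O T z y) : M T z (x * y) := by
  rcases hy with hy | hy
  · exact m_mul H hz hx hy
  · exact m_mul_u H hz hx hy

theorem m_sub {x y : F} (hx : M T z x) (hy : M T z y) : M T z (x - y) := by
  rw [sub_eq_add_neg]
  exact m_add H hz hx (m_neg H hz hy)

theorem m_of_sq {x : F} (hx : M T z (x ^ 2)) : M T z x := by
  by_cases hx0 : x = 0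
  · exact Or.inl hx0
  rcases tri H hz hx0 with h | h | h
  · exact h
  · exact absurd hx (fun h3 => u_not_m H hz (u_pow H hz h 2) h3)
  · exfalso
    have h3 := m_mul H hz hx (m_mul H hz h h)
    have e : x ^ 2 * (x⁻¹ * x⁻¹) = 1 := by field_simp
    rw [e] at h3
    exact u_not_m H hz (u_one H hz) h3

/-- If `z ^ l` is a one unit modulo a maximal ideal which contains `2`, then `z` is a square up
to one units. -/
theorem no_root (h2 : M T z 2) (l : ℕ) : 1 ≤ l → M T z (1 - z ^ l) → False := by
  induction l using Nat.strong_induction_on with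
  | _ l ih =>
    intro hl hM
    rcases Nat.even_or_odd' l with ⟨a, rfl | rfl⟩
    · apply ih a (by omega) (by omega)
      apply m_of_sq H hz
      have e : (1 - z ^ a) ^ 2 = 2 * (1 - z ^ a) - (1 - z ^ (2 * a)) := by
        rw [pow_mul']; ring
      rw [e]
      exact m_sub H hz (m_mul_o H hz h2 (o_sub H hz (Or.inr (u_one H hz))
        (Or.inr (u_pow H hz (u_z H hz) a)))) hM
    · apply hz.1.2.1
      have h3 := (one_sub H hz hM).1
      have e : 1 - (1 - z ^ (2 * a + 1)) = (z ^ a) ^ 2 * z := by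
        rw [← pow_mul, mul_comm a 2, pow_succ]; ring
      rw [e] at h3
      exact H.of_mul (H.sq (pow_ne_zero a hz.1.1)) h3

end BadCase

namespace CSet

open BadCase

variable {c : F} (H : CSet T c)
include H

/-- The residue characteristic is two. -/
theorem two_mem (h2 : (2 : F) ≠ 0) {z b : F} (hz : Bad T z) (hb : W T z b)
    (hbs : ¬ IsSquare (1 - b)) : M T z 2 := by
  have H' := H.toTRig
  by_contra hcon
  have hu2 : U T z 2 := by
    rcases tri H' hz h2 with h | h | h
    · exact absurd h hcon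
    · exact h
    · exfalso
      have h3 := (one_sub H' hz h).2
      have e : 1 - (2 : F)⁻¹ = (2 : F)⁻¹ := by field_simp; ring
      rw [e] at h3
      exact u_not_m H' hz h3 h
  obtain ⟨b', γ, hb', hbb, hγ, hγT, hγs⟩ := H.partner hb.1 hbs
  have hb0 := w0 hb
  have n1 : (1 - b) ≠ 0 := H.ne hb.1.2.2
  have hWb' : W T z b' := ⟨hb', fun h3 => hb.2 (by
    have h4 : T (b * b') := by rwa [mul_comm]
    exact H'.trans h4 h3)⟩
  set r := -(b' / (1 - b)) with hr
  have hWr : W T z r := w_neg H' hz (w_l2 H' hz hWb' hb).2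
  have hγr : γ = r * b := by rw [hγ, hr]; ring
  have hW2 : W T z (2 * (2 * r)) := (hu2.2.2 _ (hu2.2.2 _ hWr).1).1
  have hWw : W T z (2 * (2 * r) * (1 - r)) := (w_l2 H' hz hW2 hWr).1
  have hsq : IsSquare (1 - 2 * (2 * r) * (1 - r)) := ⟨1 - 2 * r, by ring⟩
  have h3 := H.hash hγT hγs hWw.1 hsq
  have r0 := w0 hWr
  have n2 : (1 - r) ≠ 0 := H.ne hWr.1.2.2
  -- `b / (4 (1 - r))` is in `W`
  have h4 : W T z (b / (1 - r) / 2 / 2) :=
    (hu2.2.2 _ (hu2.2.2 _ (w_l2 H' hz hb hWr).2).2).2
  have e : b / (1 - r) / 2 / 2 = γ / (2 * (2 * r) * (1 - r)) := by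
    rw [hγr]; field_simp
  rw [e] at h4
  exact h3 h4.1

/-- Case 2. -/
theorem case2 (h2 : (2 : F) ≠ 0) {N : ℕ}
    (hN : ∀ L : List F, (∀ x ∈ L, x ≠ 0) → L.Pairwise (fun x y => ¬ IsSquare (x * y)) →
      L.length ≤ N) {z b : F} (hz : Bad T z) (hb : Sml T b) (hbz : ¬ T (b * z))
    (hbs : ¬ IsSquare (1 - b)) : False := by
  have H' := H.toTRig
  have h2M := H.two_mem h2 hz ⟨hb, hbz⟩ hbs
  have uz := u_z H' hz
  have hz0 := hz.1.1
  -- the elements `z + z ^ (2 n)` are units
  have hU : ∀ n : ℕ, U T z (z + z ^ (2 * n)) := by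
    intro n
    have h3 : O T z (z + z ^ (2 * n)) := o_add H' hz (Or.inr uz) (Or.inr (u_pow H' hz uz _))
    rcases h3 with h3 | h3
    · exfalso
      apply hz.1.2.1
      have h4 := (one_sub H' hz (m_mul_u H' hz h3 (u_inv H' hz (u_pow H' hz uz (2 * n))))).1
      have e : (z ^ n) ^ 2 * (1 - (z + z ^ (2 * n)) * (z ^ (2 * n))⁻¹) = -z := by
        have : z ^ (2 * n) = (z ^ n) ^ 2 := by rw [← pow_mul, mul_comm]
        rw [this]
        have hn : (z ^ n) ≠ 0 := pow_ne_zero n hz0
        field_simp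
        ring
      have h5 := H'.mul (H'.sq (pow_ne_zero n hz0)) h4
      rw [e] at h5
      have h6 := H'.neg' h5
      rwa [neg_neg] at h6
    · exact h3
  -- two of them have the same class
  have h3 : ¬ ((List.range (N + 1)).map (fun n => z + z ^ (2 * n))).Pairwise
      (fun x y => ¬ IsSquare (x * y)) := by
    intro h4
    have h5 := hN _ (by
      intro x hx
      obtain ⟨n, -, rfl⟩ := List.mem_map.1 hx
      exact (hU n).1) h4
    rw [List.length_map, List.length_range] at h5
    omega
  rw [List.pairwise_map] at h3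
  have h4 : ∃ i j : ℕ, i < j ∧ IsSquare ((z + z ^ (2 * i)) * (z + z ^ (2 * j))) := by
    by_contra hcon
    push Not at hcon
    apply h3
    have h5 : (List.range (N + 1)).Pairwise (· < ·) := List.pairwise_lt_range
    exact h5.imp (fun {i j} hij => hcon i j hij)
  obtain ⟨i, j, hij, s, hs⟩ := h4
  have hUi := hU i
  have hUj := hU j
  set r := s / (z + z ^ (2 * j)) with hr
  have hj0 := hUj.1
  have hrel : z + z ^ (2 * i) = (z + z ^ (2 * j)) * r ^ 2 := by
    rw [hr]
    field_simp
    linear_combination hs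
  have hr0 : r ≠ 0 := by
    intro h5
    rw [h5] at hrel
    apply hUi.1
    rw [hrel]; ring
  have hUr : U T z r := by
    have h5 : U T z (r ^ 2) := by
      have h6 := u_mul H' hz hUi (u_inv H' hz hUj)
      have e : (z + z ^ (2 * i)) * (z + z ^ (2 * j))⁻¹ = r ^ 2 := by
        rw [hrel]; field_simp
      rwa [e] at h6
    rcases tri H' hz hr0 with h6 | h6 | h6
    · exfalso
      have h7 := m_mul H' hz h6 h6
      rw [← pow_two] at h7
      exact u_not_m H' hz h5 h7
    · exact h6
    · exfalso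
      have h7 := m_mul_u H' hz (m_mul H' hz h6 h6) h5
      have e : r⁻¹ * r⁻¹ * r ^ 2 = 1 := by field_simp
      rw [e] at h7
      exact u_not_m H' hz (u_one H' hz) h7
  have o1 : O T z 1 := Or.inr (u_one H' hz)
  have oz : O T z z := Or.inr uz
  have or' : O T z r := Or.inr hUr
  have ozp : ∀ n : ℕ, O T z (z ^ n) := fun n => Or.inr (u_pow H' hz uz n)
  set B := 1 + r with hB
  set A := z ^ j * r + z ^ i with hA
  set C := z * r + z * r * r - z ^ i * z ^ j * r - z ^ i * z ^ i with hC
  have hOC : O T z C := o_sub H' hz (o_sub H' hz (o_add H' hz (o_mul H' hz oz or')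
    (o_mul H' hz (o_mul H' hz oz or') or')) (o_mul H' hz (o_mul H' hz (ozp i) (ozp j)) or'))
    (o_mul H' hz (ozp i) (ozp i))
  have h2C : M T z (2 * C) := m_mul_o H' hz h2M hOC
  have hrel' : z + z ^ i * z ^ i = (z + z ^ j * z ^ j) * r ^ 2 := by
    have e : ∀ n : ℕ, z ^ n * z ^ n = z ^ (2 * n) := fun n => by rw [← pow_add]; congr 1; omega
    rw [e, e]
    exact hrel
  have key : z * B ^ 2 - A ^ 2 = 2 * C := by
    rw [hB, hA, hC]
    linear_combination hrel'
  rcases o_add H' hz o1 or' with h5 | h5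
  · -- `B` in the maximal ideal
    have h6 : M T z (A ^ 2) := by
      have e : A ^ 2 = B * (B * z) - 2 * C := by linear_combination -key
      rw [e]
      exact m_sub H' hz (m_mul_o H' hz h5 (o_mul H' hz (Or.inl h5) oz)) h2C
    have h7 := m_of_sq H' hz h6
    have h8 : M T z (z ^ i - z ^ j) := by
      have e : z ^ i - z ^ j = A - B * z ^ j := by rw [hA, hB]; ring
      rw [e]
      exact m_sub H' hz h7 (m_mul_o H' hz h5 (ozp j))
    have h9 := m_mul_u H' hz h8 (u_inv H' hz (u_pow H' hz uz i))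
    apply no_root H' hz h2M (j - i) (by omega)
    have e : (z ^ i - z ^ j) * (z ^ i)⁻¹ = 1 - z ^ (j - i) := by
      have h10 : z ^ j = z ^ i * z ^ (j - i) := by rw [← pow_add]; congr 1; omega
      have h11 : z ^ i ≠ 0 := pow_ne_zero i hz0
      rw [h10]
      field_simp
    rwa [e] at h9
  · -- `B` is a unit
    have hB0 : B ≠ 0 := h5.1
    have hzB := u_mul H' hz uz (u_pow H' hz h5 2)
    have h6 := (one_sub H' hz (m_mul_u H' hz h2C (u_inv H' hz hzB))).1
    have e : 1 - 2 * C * (z * (1 + r) ^ 2)⁻¹ = A ^ 2 / (z * B ^ 2) := by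
      have e2 : A ^ 2 = z * B ^ 2 - 2 * C := by linear_combination -key
      rw [e2, ← hB]
      field_simp
    rw [e] at h6
    have hA0 : A ≠ 0 := by
      rintro hA0
      apply H'.ne h6
      rw [hA0]; simp
    apply hz.1.2.1
    have h7 := H'.div (H'.div (H'.sq hA0) h6) (H'.sq hB0)
    have e3 : A ^ 2 / (A ^ 2 / (z * B ^ 2)) / B ^ 2 = z := by field_simp
    rwa [e3] at h7

end CSet

end Pool.Agent.KRad
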