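import Pool.Agent.KRad.Min.TRigC

/-!
# Chains of small elements, when there are no bad elements
-/

namespace Pool.Agent.KRad

variable {F : Type*} [Field F] {T : F → Prop}

/-- Nonnegative elements. -/
def Nn (T : F → Prop) (x : F) : Prop := x ≠ 0 ∧ ∀ h, Sml T h → ¬ T (x * h) → Sml T (x * h)

namespace TRig

variable (H : TRig T)
include H

theorem nn_of_small {x : F} (hx : Sml T x) : Nn T x := ⟨hx.1, fun _ hh h => H.l1 hx hh h⟩

theorem nn_mul (hb : ∀ z, ¬ Bad T z) {x y : F} (hx : Nn T x) (hy : Nn T y) : Nn T (x * y) := by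
  refine ⟨mul_ne_zero hx.1 hy.1, fun h hh hxyh => ?_⟩
  by_cases h1 : T (y * h)
  · by_cases h3 : T (x * h)
    · obtain ⟨g, hg, hgh, hgd⟩ := H.aux hh (hb h)
      -- `T (x y)`
      have h4 : T (x * y) := by
        have h5 : T (h * y) := by rwa [mul_comm]
        exact H.trans h3 h5
      have h5 : ¬ T (y * g) := by
        intro h6
        apply hgh
        have h7 : T (g * y) := by rwa [mul_comm]
        exact H.trans h7 h1
      have h6 := hy.2 g hg h5
      have h7 : ¬ T (x * (y * g)) := by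
        intro h8
        apply hg.2.1
        rw [← mul_assoc] at h8
        exact H.of_mul h4 h8
      have h8 := hx.2 _ h6 h7
      have hg0 := hg.1
      have e : x * (y * g) * (h / g) = x * y * h := by field_simp
      have h9 := H.l1 h8 hgd (by rw [e]; exact hxyh)
      rwa [e] at h9
    · have h4 := hx.2 h hh h3
      have h5 := hy.2 _ h4 (by
        intro h6
        apply hxyh
        have e : y * (x * h) = x * y * h := by ring
        rwa [e] at h6)
      have e : y * (x * h) = x * y * h := by ring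
      rwa [e] at h5
  · have h4 := hy.2 h hh h1
    have e : x * (y * h) = x * y * h := by ring
    have h5 := hx.2 _ h4 (by rw [e]; exact hxyh)
    rwa [e] at h5

theorem small_of_nn (hb : ∀ z, ¬ Bad T z) {x : F} (hx : Nn T x) (hxT : ¬ T x) : Sml T x := by
  rcases H.s0 hx.1 hxT with h | h
  · exact h
  · exfalso
    apply hb x⁻¹
    refine ⟨h, fun g hg hgx => ?_⟩
    have e : g / x⁻¹ = x * g := by rw [div_inv_eq_mul, mul_comm]
    rw [e]
    apply hx.2 g hg
    intro h3
    apply hgx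
    have e2 : g * x⁻¹ = x * g / x ^ 2 := by
      have := hx.1
      field_simp
    rw [e2]
    exact H.div h3 (H.sq hx.1)

/-- Division by `1 - u`. -/
theorem small_div (hb : ∀ z, ¬ Bad T z) {x u : F} (hx : Sml T x) (hu : Sml T u) :
    Sml T (x / (1 - u)) := by
  by_cases hxu : T (x * u)
  · obtain ⟨g, hg, hgx, hgd⟩ := H.aux hx (hb x)
    have h3 := (H.l2 hg hu (fun h => hgx (by
      have h4 : T (u * x) := by rwa [mul_comm]
      exact H.trans h h4))).2
    have hg0 := hg.1
    have h1u : (1 - u) ≠ 0 := H.ne hu.2.2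
    have e : g / (1 - u) * (x / g) = x / (1 - u) := by field_simp
    have h4 := H.l1 h3 hgd (by
      rw [e]
      intro h5
      apply hx.2.1
      have h6 := H.mul h5 hu.2.2
      rwa [div_mul_cancel₀ _ h1u] at h6)
    rwa [e] at h4
  · exact (H.l2 hx hu hxu).2

end TRig

namespace CSet

variable {c : F} (H : CSet T c)
include H

/-- Step (D). -/
theorem stepD (hb : ∀ z, ¬ Bad T z) {x₁ x₂ : F} (h₁ : Sml T x₁) (h₂ : Sml T x₂)
    (h12 : ¬ T (x₁ * x₂)) (hs : ¬ IsSquare (1 - x₂)) :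
    ¬ IsSquare (1 - x₂ / x₁) ∨ ¬ Sml T (x₂ / x₁) := by
  by_contra hcon
  push Not at hcon
  obtain ⟨hsq, hw⟩ := hcon
  obtain ⟨x₂', γ, hx₂', hxx, hγ, hγT, hγs⟩ := H.partner h₂ hs
  apply H.hash hγT hγs hw hsq
  have h3 := H.small_div hb hx₂' h₂
  have n₁ := h₁.1
  have n₂ := h₂.1
  have n3 : (1 - x₂) ≠ 0 := H.ne h₂.2.2
  have h4 : ¬ T (x₁ * (x₂' / (1 - x₂))) := by
    intro h5
    have h6 := H.mul h5 h₂.2.2
    have e : x₁ * (x₂' / (1 - x₂)) * (1 - x₂) = x₁ * x₂' := by field_simp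
    rw [e] at h6
    exact h12 (H.trans h6 hxx)
  have h5 := H.small_neg (H.l1 h₁ h3 h4) (hb _)
  have e : -(x₁ * (x₂' / (1 - x₂))) = γ / (x₂ / x₁) := by
    rw [hγ]; field_simp
  rwa [e] at h5

/-- Chains. -/
def Ch (T : F → Prop) (x y : F) : Prop := ¬ T (x * y) ∧ Sml T (y / x)

omit H in
theorem ch_nn (H : TRig T) (hb : ∀ z, ¬ Bad T z) {y : F} {L : List F}
    (h : List.IsChain (Ch T) (y :: L)) (hy : y ≠ 0) (h0 : ∀ x ∈ L, x ≠ 0) :
    ∀ z ∈ L, Nn T (z / y) := by
  induction L generalizing y with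
  | nil => intro z hz; simp at hz
  | cons x L ih =>
    intro z hz
    rw [List.isChain_cons_cons] at h
    have hx : x ≠ 0 := h0 x List.mem_cons_self
    rcases List.mem_cons.1 hz with rfl | hz
    · exact H.nn_of_small h.1.2
    · have h3 := ih h.2 hx (fun x hx => h0 x (List.mem_cons_of_mem _ hx)) z hz
      have h4 := H.nn_mul hb (H.nn_of_small h.1.2) h3
      have e : x / y * (z / x) = z / y := by field_simp
      rwa [e] at h4

/-- Different elements of a chain have different classes. -/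
theorem ch_ne (hb : ∀ z, ¬ Bad T z) {x y : F} {L : List F}
    (h : List.IsChain (Ch T) (x :: y :: L)) (hD : ∀ z ∈ x :: y :: L, Sml T z ∧ ¬ IsSquare (1 - z)) :
    ∀ z ∈ y :: L, ¬ IsSquare ((1 - x) * (1 - z)) := by
  intro z hz hsq
  have hx := hD x List.mem_cons_self
  have hy := hD y (List.mem_cons_of_mem _ List.mem_cons_self)
  have hz' := hD z (List.mem_cons_of_mem _ hz)
  rw [List.isChain_cons_cons] at h
  have rep : ∀ {a b : F}, Sml T a → Sml T b → IsSquare ((1 - a) * (1 - b)) →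
      ∃ p q : F, 1 - a = p ^ 2 - b * q ^ 2 := by
    intro a b ha hb ⟨r, hr⟩
    have h1b : (1 - b) ≠ 0 := H.ne hb.2.2
    refine ⟨r / (1 - b), r / (1 - b), ?_⟩
    field_simp
    linear_combination hr
  -- different classes
  by_cases hxz : T (x * z)
  · have hzL : z ∈ L := by
      rcases List.mem_cons.1 hz with rfl | h3
      · exact absurd hxz h.1.1
      · exact h3
    have h3 : Nn T (z / y) := ch_nn H.toTRig hb h.2 hy.1.1
      (fun w hw => (hD w (List.mem_cons_of_mem _ (List.mem_cons_of_mem _ hw))).1.1) z hzL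
    have hyz : ¬ T (y * z) := fun h4 => h.1.1 (by
      have h5 : T (z * y) := by rwa [mul_comm]
      exact H.trans hxz h5)
    have h4 : Sml T (z / y) := H.small_of_nn hb h3 (fun h5 => hyz (by
      rw [mul_comm]
      exact (H.div_iff hy.1.1).1 h5))
    obtain ⟨θ, hθ, e1⟩ := H.l3 hx.1 hy.1 h.1.2
    obtain ⟨θ', hθ', e2⟩ := H.l3 hy.1 hz'.1 h4
    have n1x : (1 - x) ≠ 0 := H.ne hx.1.2.2
    have n1y : (1 - y) ≠ 0 := H.ne hy.1.2.2
    have n1z : (1 - z) ≠ 0 := H.ne hz'.1.2.2
    -- the class of `(1 - x) / (1 - y)`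
    have hT : T ((1 - x) / (1 - y)) := H.div hx.1.2.2 hy.1.2.2
    have hns : ¬ IsSquare ((1 - x) / (1 - y)) := by
      rintro ⟨r, hr⟩
      apply h.1.1
      have h5 : IsSquare ((1 - y) * (1 - x)) := ⟨r * (1 - y), by
        have : (1 - y) * (1 - x) = (1 - x) / (1 - y) * (1 - y) ^ 2 := by field_simp
        rw [this, hr]; ring⟩
      have h6 : IsSquare ((1 - x) * (1 - y)) := by rwa [mul_comm]
      exact H.uniq hx.1.2.2 hx.2 hx.1.1 hx.1.2.1 ⟨1, 1, by ring⟩ hy.1.1 hy.1.2.1
        (rep hx.1 hy.1 h6)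
    have nxθ : x * θ ≠ 0 := mul_ne_zero hx.1.1 (H.ne hθ)
    have nyθ : y * θ' ≠ 0 := mul_ne_zero hy.1.1 (H.ne hθ')
    have h5 := H.uniq hT hns nxθ (fun h6 => hx.1.2.1 (H.of_mul' hθ h6))
      ⟨1, 1, by rw [← e1]; ring⟩ nyθ (fun h6 => hy.1.2.1 (H.of_mul' hθ' h6)) (by
        obtain ⟨r, hr⟩ := hsq
        refine ⟨r / (1 - y), r / (1 - y), ?_⟩
        have e3 : (r / (1 - y)) ^ 2 - y * θ' * (r / (1 - y)) ^ 2 =
            (r / (1 - y)) ^ 2 * (1 - y * θ') := by ring
        rw [e3, e2]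
        field_simp
        linear_combination hr)
    apply h.1.1
    have h6 := H.div h5 (H.mul hθ hθ')
    have e3 : x * θ * (y * θ') / (θ * θ') = x * y := by
      have n1 := H.ne hθ
      have n2 := H.ne hθ'
      field_simp
    rwa [e3] at h6
  · exact hxz (H.uniq hx.1.2.2 hx.2 hx.1.1 hx.1.2.1 ⟨1, 1, by ring⟩ hz'.1.1 hz'.1.2.1
      (rep hx.1 hz'.1 hsq))

theorem ch_pairwise (hb : ∀ z, ¬ Bad T z) {L : List F} (h : List.IsChain (Ch T) L)
    (hD : ∀ z ∈ L, Sml T z ∧ ¬ IsSquare (1 - z)) :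
    (L.map (fun z => 1 - z)).Pairwise (fun x y => ¬ IsSquare (x * y)) := by
  induction L with
  | nil => exact List.Pairwise.nil
  | cons x L ih =>
    rw [List.map_cons, List.pairwise_cons]
    cases L with
    | nil =>
      refine ⟨fun a ha => ?_, List.Pairwise.nil⟩
      simp at ha
    | cons y L =>
      refine ⟨?_, ih (List.isChain_cons_cons.1 h).2
        (fun z hz => hD z (List.mem_cons_of_mem _ hz))⟩
      intro a ha
      obtain ⟨z, hz, rfl⟩ := List.mem_map.1 ha
      exact H.ch_ne hb h hD z hz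

/-- Chains can be extended. -/
theorem ch_ext (hb : ∀ z, ¬ Bad T z) {x y : F} {L : List F}
    (h : List.IsChain (Ch T) (x :: y :: L)) (hD : ∀ z ∈ x :: y :: L, Sml T z ∧ ¬ IsSquare (1 - z)) :
    ∃ x' y' L', List.IsChain (Ch T) (x' :: y' :: L') ∧
      (∀ z ∈ x' :: y' :: L', Sml T z ∧ ¬ IsSquare (1 - z)) ∧ L'.length = L.length + 1 := by
  have hx := hD x List.mem_cons_self
  have hy := hD y (List.mem_cons_of_mem _ List.mem_cons_self)
  have hc := List.isChain_cons_cons.1 h
  have nx := hx.1.1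
  have ny := hy.1.1
  have hw : Sml T (y / x) := hc.1.2
  have hws : ¬ IsSquare (1 - y / x) := by
    rcases H.stepD hb hx.1 hy.1 hc.1.1 hy.2 with h3 | h3
    · exact h3
    · exact absurd hw h3
  have hwx : ¬ T (y / x * x) := by
    rw [div_mul_cancel₀ _ nx]
    exact hy.1.2.1
  have hwy : ¬ T (y / x * y) := by
    intro h3
    apply hx.1.2.1
    have h4 := H.div (H.sq ny) h3
    have e : y ^ 2 / (y / x * y) = x := by field_simp
    rwa [e] at h4
  have e1 : y / (y / x) = x := by field_simp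
  have hwc : List.IsChain (Ch T) (y / x :: y :: L) :=
    List.isChain_cons_cons.2 ⟨⟨hwy, by rw [e1]; exact hx.1⟩, hc.2⟩
  have hxw : ¬ T (x / (y / x)) := by
    intro h3
    apply hwx
    rw [mul_comm]
    exact (H.div_iff hw.1).1 h3
  rcases H.s0 (div_ne_zero nx hw.1) hxw with h3 | h3
  · refine ⟨y / x, x, y :: L, List.isChain_cons_cons.2 ⟨⟨hwx, h3⟩, h⟩, ?_, rfl⟩
    intro z hz
    rcases List.mem_cons.1 hz with rfl | hz
    · exact ⟨hw, hws⟩
    · exact hD z hz
  · rw [inv_div] at h3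
    refine ⟨x, y / x, y :: L, List.isChain_cons_cons.2 ⟨⟨TRig.comm hwx, h3⟩, hwc⟩, ?_, rfl⟩
    intro z hz
    rcases List.mem_cons.1 hz with rfl | hz
    · exact hx
    · rcases List.mem_cons.1 hz with rfl | hz
      · exact ⟨hw, hws⟩
      · exact hD z (List.mem_cons_of_mem _ hz)

/-- Case 1. -/
theorem case1 (hb : ∀ z, ¬ Bad T z) {N : ℕ}
    (hN : ∀ L : List F, (∀ x ∈ L, x ≠ 0) → L.Pairwise (fun x y => ¬ IsSquare (x * y)) →
      L.length ≤ N) {a b : F} (ha : Sml T a) (hbs : Sml T b) (hab : ¬ T (a * b))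
    (hsa : ¬ IsSquare (1 - a)) (hsb : ¬ IsSquare (1 - b)) : False := by
  have key : ∀ n : ℕ, ∃ x y L, List.IsChain (Ch T) (x :: y :: L) ∧
      (∀ z ∈ x :: y :: L, Sml T z ∧ ¬ IsSquare (1 - z)) ∧ L.length = n := by
    intro n
    induction n with
    | zero =>
      have h3 : ¬ T (b / a) := fun h => hab (by
        rw [mul_comm]
        exact (H.div_iff ha.1).1 h)
      rcases H.s0 (div_ne_zero hbs.1 ha.1) h3 with h | h
      · refine ⟨a, b, [], List.isChain_cons_cons.2 ⟨⟨hab, h⟩, List.isChain_singleton _⟩, ?_, rfl⟩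
        intro z hz
        simp only [List.mem_cons, List.not_mem_nil, or_false] at hz
        rcases hz with rfl | rfl
        · exact ⟨ha, hsa⟩
        · exact ⟨hbs, hsb⟩
      · rw [inv_div] at h
        refine ⟨b, a, [], List.isChain_cons_cons.2 ⟨⟨TRig.comm hab, h⟩, List.isChain_singleton _⟩,
          ?_, rfl⟩
        intro z hz
        simp only [List.mem_cons, List.not_mem_nil, or_false] at hz
        rcases hz with rfl | rfl
        · exact ⟨hbs, hsb⟩
        · exact ⟨ha, hsa⟩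
    | succ n ih =>
      obtain ⟨x, y, L, h, hD, rfl⟩ := ih
      exact H.ch_ext hb h hD
  obtain ⟨x, y, L, h, hD, hL⟩ := key N
  have h3 := hN ((x :: y :: L).map (fun z => 1 - z)) (by
    intro a ha
    obtain ⟨z, hz, rfl⟩ := List.mem_map.1 ha
    exact H.ne (hD z hz).1.2.2) (H.ch_pairwise hb h hD)
  simp only [List.length_map, List.length_cons, hL] at h3
  omega

end CSet

end Pool.Agent.KRad
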