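import Pool.Agent.KRad.GoFinal
import Pool.Agent.Hhelper2.BasicPart

/-!
# Rigid classes, characters with rigid complement, local type
-/

namespace Pool.Agent.KRad

open Pool.Agent.Hhelper2 Pool.Agent.Hhelper2.QuadExt Pool.Agent.Hhelper2.Tower Additive Module
open Pool.Agent.Hhelper2.FieldAx

universe u

/-- The class `x` is rigid. -/
def Rig (K : Type u) [Field K] (x : VV K) : Prop :=
  ∀ y, Sp K x y → y = 0 ∨ y = ofMul (sqClass (-1)) + x

/-- A nonzero character `g`, trivial at the class of `-1`, such that all classes outside its kernel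
are rigid. -/
structure RigChar (K : Type u) [Field K] (g : VV K →ₗ[ZMod 2] ZMod 2) : Prop where
  ne : g ≠ 0
  neg : g (ofMul (sqClass (-1))) = 0
  rig : ∀ x, g x = 1 → Rig K x

/-- All nonzero classes have rank one. -/
def LocT (K : Type u) [Field K] : Prop := ∀ x : VV K, x ≠ 0 → sv K x = 1

end Pool.Agent.KRad
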