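import Pool.Agent.KRad.Basic

/-!
# Module M1: rank two classes (P1 for k = 2)
-/

namespace Pool.Agent.KRad

open Module

namespace P1T

variable {V Q : Type*} [AddCommGroup V] [Module (ZMod 2) V] [AddCommGroup Q]
    [Module (ZMod 2) Q]

lemma swap2 {A : Type*} [AddCommGroup A] [Module (ZMod 2) A] {a b c d : A}
    (h : a + b = c + d) : c + a = d + b := by
  have h1 : a = c + d + b := by rw [← h, add_assoc, ZModModule.add_self, add_zero]
  rw [h1]
  have : c + (c + d + b) = (c + c) + (d + b) := by abel
  rw [this, ZModModule.add_self, zero_add]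

lemma exists_pair (β : V →ₗ[ZMod 2] V →ₗ[ZMod 2] Q)
    (cs : ∀ a b c d, β a b = β c d → ∃ w, β a w = β a b ∧ β c w = β a b) {b b' : V} {q q' : Q}
    (h : q ∈ LinearMap.range (β b)) (h' : q' ∈ LinearMap.range (β b'))
    (h'' : q + q' ∈ LinearMap.range (β (b + b'))) : ∃ x, β b x = q ∧ β b' x = q' := by
  obtain ⟨x0, hx0⟩ := h
  obtain ⟨x1, hx1⟩ := h'
  obtain ⟨x2, hx2⟩ := h''
  rw [map_add, LinearMap.add_apply] at hx2
  have e : β b (x0 + x2) = β b' (x1 + x2) := by
    rw [map_add, map_add, hx0, hx1]
    exact swap2 hx2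
  obtain ⟨w, hw1, hw2⟩ := cs _ _ _ _ e
  refine ⟨w + x2, ?_, ?_⟩
  · rw [map_add, hw1, map_add, add_assoc, ZModModule.add_self, add_zero, hx0]
  · rw [map_add, hw2, e, map_add, add_assoc, ZModModule.add_self, add_zero, hx1]

section count

variable [Fintype V] (β : V →ₗ[ZMod 2] V →ₗ[ZMod 2] Q)

open Classical in
/-- the number of `x` with `β b x = q`, `β b' x = q'` -/
noncomputable def cnt (b b' : V) (q q' : Q) : ℕ :=
  ∑ x : V, (if β b x = q then 1 else 0) * (if β b' x = q' then 1 else 0)

lemma cnt_eq {b b' : V} {q q' : Q} (h : ∃ x, β b x = q ∧ β b' x = q') :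
    cnt β b b' q q' = cnt β b b' 0 0 := by
  classical
  obtain ⟨x0, h1, h2⟩ := h
  unfold cnt
  rw [← Equiv.sum_comp (Equiv.addRight x0)]
  refine Finset.sum_congr rfl fun x _ => ?_
  simp only [Equiv.coe_addRight, map_add, h1, h2]
  congr 1
  · by_cases hx : β b x = 0
    · rw [if_pos hx, if_pos (by rw [hx, zero_add])]
    · rw [if_neg hx, if_neg (by rw [add_eq_right]; exact hx)]
  · by_cases hx : β b' x = 0
    · rw [if_pos hx, if_pos (by rw [hx, zero_add])]
    · rw [if_neg hx, if_neg (by rw [add_eq_right]; exact hx)]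

lemma cnt_zero {b b' : V} {q q' : Q} (h : ¬ ∃ x, β b x = q ∧ β b' x = q') :
    cnt β b b' q q' = 0 := by
  classical
  unfold cnt
  refine Finset.sum_eq_zero fun x _ => ?_
  by_cases h1 : β b x = q
  · have h2 : ¬ β b' x = q' := fun h2 => h ⟨x, h1, h2⟩
    rw [if_neg h2, mul_zero]
  · rw [if_neg h1, zero_mul]

lemma cnt_pos (b b' : V) : 0 < cnt β b b' 0 0 := by
  classical
  unfold cnt
  apply Finset.sum_pos' (fun _ _ => Nat.zero_le _)
  exact ⟨0, Finset.mem_univ _, by simp⟩

lemma cnt_pos_iff {b b' : V} {q q' : Q} :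
    cnt β b b' q q' ≠ 0 ↔ ∃ x, β b x = q ∧ β b' x = q' := by
  constructor
  · intro h
    by_contra hcon
    exact h (cnt_zero β hcon)
  · intro h
    rw [cnt_eq β h]
    exact (cnt_pos β b b').ne'

omit [AddCommGroup V] [Module (ZMod 2) V] in
/-- double counting -/
lemma double_count (p p' : V → ℕ) (r r' : V → V → ℕ) :
    ∑ b, ∑ b', p b * p' b' * ∑ x, r b x * r' b' x =
      ∑ x, (∑ b, p b * r b x) * (∑ b', p' b' * r' b' x) := by
  simp_rw [Finset.sum_mul_sum, Finset.mul_sum]
  calc ∑ b, ∑ b', ∑ x, p b * p' b' * (r b x * r' b' x)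
      = ∑ b, ∑ x, ∑ b', p b * p' b' * (r b x * r' b' x) := by
        refine Finset.sum_congr rfl fun b _ => Finset.sum_comm
    _ = ∑ x, ∑ b, ∑ b', p b * p' b' * (r b x * r' b' x) := Finset.sum_comm
    _ = _ := by
        refine Finset.sum_congr rfl fun x _ => Finset.sum_congr rfl fun b _ =>
          Finset.sum_congr rfl fun b' _ => ?_
        ring

end count

/-- the full classes -/
def Full (β : V →ₗ[ZMod 2] V →ₗ[ZMod 2] Q) (c x : V) : Prop :=
  LinearMap.range (β c) ≤ LinearMap.range (β x)

lemma four {W : Submodule (ZMod 2) Q} (hW : finrank (ZMod 2) W = 2) {p q : Q} (hp : p ∈ W)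
    (hq : q ∈ W) (hp0 : p ≠ 0) (hq0 : q ≠ 0) (hpq : p ≠ q) :
    W ≤ Submodule.span (ZMod 2) {p, q} := by
  have hfd : FiniteDimensional (ZMod 2) W := FiniteDimensional.of_finrank_pos (by omega)
  have hle : Submodule.span (ZMod 2) {p, q} ≤ W := by
    rw [Submodule.span_le]
    rintro x (rfl | rfl)
    · exact hp
    · exact hq
  have hli : LinearIndependent (ZMod 2) ![p, q] := by
    rw [LinearIndependent.pair_iff]
    intro s t hst
    have hz : ∀ r : ZMod 2, r = 0 ∨ r = 1 := by decide
    rcases hz s with rfl | rfl <;> rcases hz t with rfl | rfl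
    · simp
    · simp only [zero_smul, one_smul, zero_add] at hst; exact absurd hst hq0
    · simp only [zero_smul, one_smul, add_zero] at hst; exact absurd hst hp0
    · simp only [one_smul] at hst
      exfalso; apply hpq
      rw [← ZModModule.neg_eq_self q]
      exact eq_neg_of_add_eq_zero_left hst
  have hfr : finrank (ZMod 2) (Submodule.span (ZMod 2) {p, q}) = 2 := by
    have := finrank_span_eq_card hli
    rw [Matrix.range_cons_cons_empty] at this
    simpa using this
  have := Submodule.eq_of_le_of_finrank_eq hle (by rw [hfr, hW])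
  exact this.ge

lemma full_of {β : V →ₗ[ZMod 2] V →ₗ[ZMod 2] Q} {c : V}
    (hk : finrank (ZMod 2) (LinearMap.range (β c)) = 2) {x : V} {p q : Q}
    (hp : p ∈ LinearMap.range (β c)) (hq : q ∈ LinearMap.range (β c)) (hp0 : p ≠ 0) (hq0 : q ≠ 0)
    (hpq : p ≠ q) (hpx : p ∈ LinearMap.range (β x)) (hqx : q ∈ LinearMap.range (β x)) :
    Full β c x := by
  refine le_trans (four hk hp hq hp0 hq0 hpq) ?_
  rw [Submodule.span_le]
  rintro x (rfl | rfl)
  · exact hpx
  · exact hqx

/-- `finrank N(x) = finrank (P (x+c)) + finrank (N(x) ∩ N(c))` -/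
lemma finrank_N [Finite V] (β : V →ₗ[ZMod 2] V →ₗ[ZMod 2] Q)
    (cs : ∀ a b c d, β a b = β c d → ∃ w, β a w = β a b ∧ β c w = β a b) (c x : V) :
    finrank (ZMod 2) (LinearMap.range (β (c + x)) ⊓ LinearMap.range (β c) :
      Submodule (ZMod 2) Q) +
      finrank (ZMod 2) (LinearMap.ker (β x) ⊓ LinearMap.ker (β c) : Submodule (ZMod 2) V) =
      finrank (ZMod 2) (LinearMap.ker (β x)) := by
  set f : LinearMap.ker (β x) →ₗ[ZMod 2] Q := (β c).domRestrict (LinearMap.ker (β x)) with hf
  have h1 := LinearMap.finrank_range_add_finrank_ker f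
  have h2 : LinearMap.range f = LinearMap.range (β (c + x)) ⊓ LinearMap.range (β c) := by
    ext q
    rw [Submodule.mem_inf]
    constructor
    · rintro ⟨n, rfl⟩
      have hn : β x n = 0 := n.2
      refine ⟨⟨n, ?_⟩, ⟨n, rfl⟩⟩
      rw [map_add, LinearMap.add_apply, hn, add_zero]; rfl
    · rintro ⟨hq1, hq2⟩
      obtain ⟨n, hn1, hn2⟩ := exists_pair β cs hq2 (LinearMap.range (β x)).zero_mem
        (by rw [add_zero]; exact hq1)
      exact ⟨⟨n, hn2⟩, hn1⟩
  have h3 : finrank (ZMod 2) (LinearMap.ker f) =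
      finrank (ZMod 2) (LinearMap.ker (β x) ⊓ LinearMap.ker (β c) : Submodule (ZMod 2) V) := by
    rw [← Submodule.finrank_map_subtype_eq (LinearMap.ker (β x)) (LinearMap.ker f)]
    have : (LinearMap.ker f).map (LinearMap.ker (β x)).subtype =
        LinearMap.ker (β x) ⊓ LinearMap.ker (β c) := by
      ext n
      simp only [Submodule.mem_map, Submodule.mem_inf]
      constructor
      · rintro ⟨m, hm, rfl⟩
        exact ⟨m.2, hm⟩
      · rintro ⟨hn1, hn2⟩
        exact ⟨⟨n, hn1⟩, hn2, rfl⟩
    rw [this]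
  rw [h2, h3] at h1
  exact h1

lemma full_iff [Finite V] (β : V →ₗ[ZMod 2] V →ₗ[ZMod 2] Q)
    (cs : ∀ a b c d, β a b = β c d → ∃ w, β a w = β a b ∧ β c w = β a b) (c : V)
    (bal : ∀ b, b ≠ 0 → b ≠ c →
      finrank (ZMod 2) (LinearMap.range (β (b + c))) = finrank (ZMod 2) (LinearMap.range (β b)))
    {x : V} (hx0 : x ≠ 0) (hxc : x ≠ c) (h : Full β c (x + c)) : Full β c x := by
  have e1 := finrank_N β cs c x
  have e2 := finrank_N β cs c (c + x)
  have e3 : c + (c + x) = x := by rw [← add_assoc, ZModModule.add_self, zero_add]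
  rw [e3] at e2
  have e4 : LinearMap.ker (β (c + x)) ⊓ LinearMap.ker (β c) =
      LinearMap.ker (β x) ⊓ LinearMap.ker (β c) := by
    ext n
    simp only [Submodule.mem_inf, LinearMap.mem_ker, map_add, LinearMap.add_apply]
    constructor
    · rintro ⟨h1, h2⟩
      rw [h2, zero_add] at h1
      exact ⟨h1, h2⟩
    · rintro ⟨h1, h2⟩
      exact ⟨by rw [h1, h2, add_zero], h2⟩
  rw [e4] at e2
  have e5 := bal x hx0 hxc
  rw [add_comm x c] at e5
  have e6 := LinearMap.finrank_range_add_finrank_ker (β x)
  have e7 := LinearMap.finrank_range_add_finrank_ker (β (c + x))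
  have e8 : finrank (ZMod 2) (LinearMap.range (β x) ⊓ LinearMap.range (β c) :
      Submodule (ZMod 2) Q) = finrank (ZMod 2) (LinearMap.range (β (c + x)) ⊓
        LinearMap.range (β c) : Submodule (ZMod 2) Q) := by omega
  have e9 : LinearMap.range (β (c + x)) ⊓ LinearMap.range (β c) = LinearMap.range (β c) := by
    rw [add_comm c x]
    exact inf_eq_right.2 h
  rw [e9] at e8
  have e10 := Submodule.eq_of_le_of_finrank_eq
    (inf_le_right : LinearMap.range (β x) ⊓ LinearMap.range (β c) ≤ LinearMap.range (β c)) e8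
  exact inf_eq_right.1 e10

end P1T

open P1T in
/-- Module M1. -/
theorem p1_two {V Q : Type*} [AddCommGroup V] [Module (ZMod 2) V] [Finite V] [AddCommGroup Q]
    [Module (ZMod 2) Q] (β : V →ₗ[ZMod 2] V →ₗ[ZMod 2] Q) (symm : ∀ x y, β x y = β y x)
    (alt : ∀ x, β x x = 0)
    (cs : ∀ a b c d, β a b = β c d → ∃ w, β a w = β a b ∧ β c w = β a b) (c : V)
    (bal : ∀ b, b ≠ 0 → b ≠ c →
      finrank (ZMod 2) (LinearMap.range (β (b + c))) = finrank (ZMod 2) (LinearMap.range (β b)))
    (hk : finrank (ZMod 2) (LinearMap.range (β c)) = 2) (b : V) (hb : β c b ≠ 0) (q : Q)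
    (hq : q ∈ LinearMap.range (β b)) (hq' : q ∈ LinearMap.range (β c)) :
    q = 0 ∨ q = β c b := by
  classical
  have : Fintype V := Fintype.ofFinite V
  by_contra hcon
  push Not at hcon
  obtain ⟨hq0, hqb⟩ := hcon
  set W := LinearMap.range (β c) with hWdef
  -- basic facts
  have hF0 : ¬ Full β c 0 := by
    intro h
    have h1 : β c b ∈ LinearMap.range (β (0 : V)) := h ⟨b, rfl⟩
    obtain ⟨n, hn⟩ := h1
    rw [map_zero, LinearMap.zero_apply] at hn
    exact hb hn.symm
  have hmem : ∀ x, β c x ∈ LinearMap.range (β x) := fun x => ⟨c, symm x c⟩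
  have hfull : ∀ {x : V}, Full β c (x + c) → x ≠ 0 → Full β c x := by
    intro x h hx0
    by_cases hxc : x = c
    · rw [hxc, ZModModule.add_self] at h
      exact absurd h hF0
    · exact full_iff β cs c bal hx0 hxc h
  have hfull' : ∀ {x : V}, β c x ≠ 0 → Full β c x → Full β c (x + c) := by
    intro x hx h
    apply hfull
    · rw [add_assoc, ZModModule.add_self, add_zero]; exact h
    · intro h0
      apply hx
      have : x = c := by rw [← ZModModule.neg_eq_self c]; exact eq_neg_of_add_eq_zero_left h0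
      rw [this, alt]
  set a := β c b with ha
  have haW : a ∈ W := ⟨b, rfl⟩
  have hUb : Full β c b := full_of hk hq' haW hq0 hb hqb hq (hmem b)
  -- A
  have hA : ∀ p ∈ W, p ≠ 0 → ∃ x, β c x = p ∧ Full β c x := by
    intro p hp hp0
    by_cases hpa : p = a
    · exact ⟨b, hpa.symm, hUb⟩
    · have h1 : Full β c (b + c) := hfull' hb hUb
      obtain ⟨x, hx1, hx2⟩ := exists_pair β cs (b := c) (b' := b) hp
        (LinearMap.range (β b)).zero_mem (by rw [add_zero, add_comm c b]; exact h1 hp)
      refine ⟨x, hx1, ?_⟩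
      have hx0 : β c x ≠ 0 := by rw [hx1]; exact hp0
      have h2 : Full β c (x + c) := by
        apply full_of hk hp haW hp0 hb hpa
        · refine ⟨x, ?_⟩
          rw [map_add, LinearMap.add_apply, alt, zero_add, hx1]
        · refine ⟨b, ?_⟩
          rw [map_add, LinearMap.add_apply, symm x b, hx2, zero_add]
      apply hfull h2
      intro h; apply hx0; rw [h, map_zero]
  -- evaluation of the counts
  have hcnt1 : ∀ (x : V) (p r : Q), p ∈ W → cnt β c x p r ≠ 0 →
      r ∈ LinearMap.range (β x) ∧ p + r ∈ LinearMap.range (β (x + c)) := by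
    intro x p r _ h
    obtain ⟨y, hy1, hy2⟩ := (cnt_pos_iff β).1 h
    refine ⟨⟨y, hy2⟩, ⟨y, ?_⟩⟩
    rw [map_add, LinearMap.add_apply, hy1, hy2, add_comm]
  -- auxiliary identities in `W`
  have hne : ∀ {p p' : Q}, p ≠ p' → p + p' ≠ 0 := by
    intro p p' h h0
    apply h
    rw [← ZModModule.neg_eq_self p']; exact eq_neg_of_add_eq_zero_left h0
  have hl1 : ∀ p p' : Q, p + (p + p') = p' := by
    intro p p'; rw [← add_assoc, ZModModule.add_self, zero_add]
  have hl2 : ∀ p p' : Q, p' + (p + p') = p := by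
    intro p p'; rw [add_comm p p', ← add_assoc, ZModModule.add_self, zero_add]
  have hcount : ∀ p p' r r' : Q,
      ∑ y : V, ∑ y' : V, (if β c y = p then 1 else 0) * (if β c y' = p' then 1 else 0) *
        cnt β y y' r r' = ∑ x : V, cnt β c x p r * cnt β c x p' r' := by
    intro p p' r r'
    have h := double_count (fun y => if β c y = p then 1 else 0)
      (fun y => if β c y = p' then 1 else 0) (fun y x => if β y x = r then 1 else 0)
      (fun y x => if β y x = r' then 1 else 0)
    refine Eq.trans h ?_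
    refine Finset.sum_congr rfl fun x _ => ?_
    unfold cnt
    congr 1
    · refine Finset.sum_congr rfl fun y _ => ?_
      rw [symm y x]
    · refine Finset.sum_congr rfl fun y _ => ?_
      rw [symm y x]
  -- the good elements
  have hgood : ∀ x (p r : Q), p ∈ W → r ∈ W → Full β c x → Full β c (x + c) →
      cnt β c x p r = cnt β c x 0 0 := by
    intro x p r hp hr h1 h2
    apply cnt_eq
    apply exists_pair β cs hp (h1 hr)
    rw [add_comm c x]
    exact h2 (W.add_mem hp hr)
  have hgood1 : ∀ x (p p' : Q), p ∈ W → p' ∈ W → p ≠ 0 → p' ≠ 0 → p ≠ p' →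
      cnt β c x p (p + p') * cnt β c x p' (p + p') ≠ 0 → Full β c x ∧ Full β c (x + c) := by
    intro x p p' hp hp' hp0 hp'0 hpp h
    have h1 := hcnt1 x p (p + p') hp (left_ne_zero_of_mul h)
    have h2 := hcnt1 x p' (p + p') hp' (right_ne_zero_of_mul h)
    rw [hl1] at h1
    rw [hl2] at h2
    have h3 : Full β c (x + c) := full_of hk hp hp' hp0 hp'0 hpp h2.2 h1.2
    refine ⟨hfull h3 ?_, h3⟩
    intro hx0
    obtain ⟨n, hn⟩ := h1.1
    rw [hx0, map_zero, LinearMap.zero_apply] at hn
    exact hne hpp hn.symm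
  have hlW : ∀ {p p' : Q}, p ∈ W → p' ∈ W → p + p' ∈ W := fun h h' => W.add_mem h h'
  have hpl : ∀ {p p' : Q}, p' ≠ 0 → p ≠ p + p' := by
    intro p p' h h0
    exact h (by simpa using h0)
  have hpl' : ∀ {p p' : Q}, p ≠ 0 → p' ≠ p + p' := by
    intro p p' h h0
    exact h (by simpa using h0)
  -- the left side of the first count
  have hleft : ∀ (p p' : Q), p ∈ W → p' ∈ W → p ≠ 0 → p' ≠ 0 → p ≠ p' →
      ∑ y : V, ∑ y' : V, (if β c y = p ∧ Full β c y then 1 else 0) *
        (if β c y' = p' ∧ Full β c y' then 1 else 0) * cnt β y y' 0 0 =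
      ∑ x : V, cnt β c x p (p + p') * cnt β c x p' (p + p') := by
    intro p p' hp hp' hp0 hp'0 hpp
    rw [← hcount]
    refine Finset.sum_congr rfl fun y _ => Finset.sum_congr rfl fun y' _ => ?_
    by_cases hy : β c y = p
    · by_cases hy' : β c y' = p'
      · rw [if_pos hy, if_pos hy']
        by_cases hF : Full β c y ∧ Full β c y'
        · rw [if_pos ⟨hy, hF.1⟩, if_pos ⟨hy', hF.2⟩]
          congr 1
          symm
          apply cnt_eq
          apply exists_pair β cs (hF.1 (hlW hp hp')) (hF.2 (hlW hp hp'))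
          rw [ZModModule.add_self]
          exact Submodule.zero_mem _
        · have h1 : (if β c y = p ∧ Full β c y then 1 else 0) *
            (if β c y' = p' ∧ Full β c y' then 1 else 0) = 0 := by
            rw [mul_eq_zero]
            by_contra hcon
            push Not at hcon
            apply hF
            constructor
            · by_contra hne1
              exact hcon.1 (if_neg fun h => hne1 h.2)
            · by_contra hne1
              exact hcon.2 (if_neg fun h => hne1 h.2)
          rw [h1, zero_mul, one_mul, one_mul]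
          symm
          apply cnt_zero
          rintro ⟨x, hx1, hx2⟩
          apply hF
          constructor
          · apply full_of hk hp (hlW hp hp') hp0 (hne hpp) (hpl hp'0)
            · rw [← hy]; exact hmem y
            · exact ⟨x, hx1⟩
          · apply full_of hk hp' (hlW hp hp') hp'0 (hne hpp) (hpl' hp0)
            · rw [← hy']; exact hmem y'
            · exact ⟨x, hx2⟩
      · rw [if_neg hy', if_neg (show ¬ (β c y' = p' ∧ Full β c y') from fun h => hy' h.1)]; simp
    · rw [if_neg hy, if_neg (show ¬ (β c y = p ∧ Full β c y) from fun h => hy h.1)]; simp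
  -- B
  have hB : ∀ p ∈ W, ∀ p' ∈ W, p ≠ 0 → p' ≠ 0 → p ≠ p' → ∀ y y', β c y = p → Full β c y →
      β c y' = p' → Full β c y' → Full β c (y + y') := by
    intro p hp p' hp' hp0 hp'0 hpp y0 y0' hy0 hFy0 hy0' hFy0'
    by_contra hnF
    have e1 := hleft p p' hp hp' hp0 hp'0 hpp
    have e2 : ∑ y : V, ∑ y' : V, (if β c y = p ∧ Full β c y then 1 else 0) *
        (if β c y' = p' ∧ Full β c y' then 1 else 0) *
          (if Full β c (y + y') then cnt β y y' 0 0 else 0) =
        ∑ x : V, cnt β c x p (p + p') * cnt β c x p' p := by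
      rw [← hcount]
      refine Finset.sum_congr rfl fun y _ => Finset.sum_congr rfl fun y' _ => ?_
      by_cases hy : β c y = p
      · by_cases hy' : β c y' = p'
        · rw [if_pos hy, if_pos hy']
          by_cases hF : Full β c y ∧ Full β c y' ∧ Full β c (y + y')
          · rw [if_pos ⟨hy, hF.1⟩, if_pos ⟨hy', hF.2.1⟩, if_pos hF.2.2]
            congr 1
            symm
            apply cnt_eq
            apply exists_pair β cs (hF.1 (hlW hp hp')) (hF.2.1 hp)
            rw [add_comm (p + p') p, hl1]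
            exact hF.2.2 hp'
          · have h1 : (if β c y = p ∧ Full β c y then 1 else 0) *
              (if β c y' = p' ∧ Full β c y' then 1 else 0) *
              (if Full β c (y + y') then cnt β y y' 0 0 else 0) = 0 := by
              rw [mul_eq_zero, mul_eq_zero]
              by_contra hcon
              push Not at hcon
              apply hF
              refine ⟨?_, ?_, ?_⟩
              · by_contra hne1
                exact hcon.1.1 (if_neg fun h => hne1 h.2)
              · by_contra hne1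
                exact hcon.1.2 (if_neg fun h => hne1 h.2)
              · by_contra hne1
                exact hcon.2 (if_neg hne1)
            rw [h1, one_mul, one_mul]
            symm
            apply cnt_zero
            rintro ⟨x, hx1, hx2⟩
            apply hF
            refine ⟨?_, ?_, ?_⟩
            · apply full_of hk hp (hlW hp hp') hp0 (hne hpp) (hpl hp'0)
              · rw [← hy]; exact hmem y
              · exact ⟨x, hx1⟩
            · apply full_of hk hp hp' hp0 hp'0 hpp
              · exact ⟨x, hx2⟩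
              · rw [← hy']; exact hmem y'
            · apply full_of hk hp' (hlW hp hp') hp'0 (hne hpp) (hpl' hp0)
              · refine ⟨x, ?_⟩
                rw [map_add, LinearMap.add_apply, hx1, hx2, add_comm (p + p') p, hl1]
              · have e : β c (y + y') = p + p' := by rw [map_add, hy, hy']
                rw [← e]; exact hmem _
        · rw [if_neg hy', if_neg (show ¬ (β c y' = p' ∧ Full β c y') from fun h => hy' h.1)]; simp
      · rw [if_neg hy, if_neg (show ¬ (β c y = p ∧ Full β c y) from fun h => hy h.1)]; simp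
    have e3 : ∑ x : V, cnt β c x p (p + p') * cnt β c x p' (p + p') =
        ∑ x : V, cnt β c x p (p + p') * cnt β c x p' p := by
      refine Finset.sum_congr rfl fun x _ => ?_
      by_cases hg : Full β c x ∧ Full β c (x + c)
      · rw [hgood x p' (p + p') hp' (hlW hp hp') hg.1 hg.2, hgood x p' p hp' hp hg.1 hg.2]
      · have h1 : cnt β c x p (p + p') * cnt β c x p' (p + p') = 0 := by
          by_contra h
          exact hg (hgood1 x p p' hp hp' hp0 hp'0 hpp h)
        have h2 : cnt β c x p (p + p') * cnt β c x p' p = 0 := by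
          by_contra h
          apply hg
          have h1 := hcnt1 x p (p + p') hp (left_ne_zero_of_mul h)
          have h2 := hcnt1 x p' p hp' (right_ne_zero_of_mul h)
          rw [hl1] at h1
          refine ⟨full_of hk hp (hlW hp hp') hp0 (hne hpp) (hpl hp'0) h2.1 h1.1, ?_⟩
          apply full_of hk hp' (hlW hp hp') hp'0 (hne hpp) (hpl' hp0) h1.2
          rw [add_comm p p']; exact h2.2
        rw [h1, h2]
    have e4 : ∑ y : V, ∑ y' : V, (if β c y = p ∧ Full β c y then 1 else 0) *
        (if β c y' = p' ∧ Full β c y' then 1 else 0) *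
          (if Full β c (y + y') then cnt β y y' 0 0 else 0) <
        ∑ y : V, ∑ y' : V, (if β c y = p ∧ Full β c y then 1 else 0) *
        (if β c y' = p' ∧ Full β c y' then 1 else 0) * cnt β y y' 0 0 := by
      have hle : ∀ y y' : V, (if β c y = p ∧ Full β c y then 1 else 0) *
        (if β c y' = p' ∧ Full β c y' then 1 else 0) *
          (if Full β c (y + y') then cnt β y y' 0 0 else 0) ≤
          (if β c y = p ∧ Full β c y then 1 else 0) *
        (if β c y' = p' ∧ Full β c y' then 1 else 0) * cnt β y y' 0 0 := by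
        intro y y'
        apply Nat.mul_le_mul_left
        split_ifs
        · exact le_rfl
        · exact Nat.zero_le _
      apply Finset.sum_lt_sum
      · intro y _
        exact Finset.sum_le_sum fun y' _ => hle y y'
      · refine ⟨y0, Finset.mem_univ _, ?_⟩
        apply Finset.sum_lt_sum
        · intro y' _; exact hle y0 y'
        · refine ⟨y0', Finset.mem_univ _, ?_⟩
          rw [if_pos ⟨hy0, hFy0⟩, if_pos ⟨hy0', hFy0'⟩, if_neg hnF, mul_zero, one_mul, one_mul]
          exact cnt_pos β y0 y0'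
    rw [e1, e2, e3] at e4
    exact lt_irrefl _ e4
  -- E
  have hE : ∀ x p y, Full β c x → Full β c (x + c) → p ∈ W → p ≠ 0 → β c y = p → β x y = 0 →
      Full β c y := by
    intro x p y hx hxc hp hp0 hy hxy
    obtain ⟨p', hp', hp'0, hpp⟩ : ∃ p' ∈ W, p' ≠ 0 ∧ p ≠ p' := by
      by_cases hpa : p = a
      · exact ⟨q, hq', hq0, by rw [hpa]; exact fun h => hqb h.symm⟩
      · exact ⟨a, haW, hb, hpa⟩
    have hcx : Full β c (c + x) := by rw [add_comm]; exact hxc
    obtain ⟨z, hz1, hz2⟩ := exists_pair β cs hp (hx hp') (hcx (hlW hp hp'))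
    have hzF : Full β c z := by
      apply full_of hk hp hp' hp0 hp'0 hpp
      · rw [← hz1]; exact hmem z
      · exact ⟨x, by rw [symm, hz2]⟩
    obtain ⟨z', hz'1, hz'2⟩ := exists_pair β cs hp' (hx hp) (hcx (hlW hp' hp))
    have hz'F : Full β c z' := by
      apply full_of hk hp hp' hp0 hp'0 hpp
      · exact ⟨x, by rw [symm, hz'2]⟩
      · rw [← hz'1]; exact hmem z'
    -- z'' = z' + (y + z)
    have hz''c : β c (z' + (y + z)) = p' := by
      rw [map_add, map_add, hz'1, hy, hz1, ZModModule.add_self, add_zero]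
    have hz''x : β x (z' + (y + z)) = p + p' := by
      rw [map_add, map_add, hz'2, hxy, hz2, zero_add]
    have hz''F : Full β c (z' + (y + z)) := by
      apply full_of hk hp' (hlW hp hp') hp'0 (hne hpp) (hpl' hp0)
      · rw [← hz''c]; exact hmem _
      · exact ⟨x, by rw [symm, hz''x]⟩
    -- y = z' + (z'' + z)
    have h1 : Full β c (z' + (y + z) + z) := hB p' hp' p hp hp'0 hp0 (Ne.symm hpp) _ _
      hz''c hz''F hz1 hzF
    have h1c : β c (z' + (y + z) + z) = p' + p := by rw [map_add, hz''c, hz1]
    have h2 : Full β c (z' + (z' + (y + z) + z)) := hB p' hp' (p' + p) (hlW hp' hp) hp'0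
      (hne (Ne.symm hpp)) (hpl hp0) _ _ hz'1 hz'F h1c h1
    have h3 : z' + (z' + (y + z) + z) = y := by
      have : z' + (z' + (y + z) + z) = (z' + z') + y + (z + z) := by abel
      rw [this, ZModModule.add_self, ZModModule.add_self, zero_add, add_zero]
    rw [h3] at h2
    exact h2
  -- F
  obtain ⟨v, hv1, hv2⟩ := hA q hq' hq0
  have haq : a ≠ q := fun h => hqb h.symm
  have f1 := hleft a q haW hq' hb hq0 haq
  have f2 := double_count (fun y => if β c y = a ∧ Full β c y then 1 else 0)
      (fun y => if β c y = q ∧ Full β c y then 1 else 0) (fun y x => if β y x = 0 then 1 else 0)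
      (fun y x => if β y x = 0 then 1 else 0)
  have f3 : ∑ x : V, cnt β c x a (a + q) * cnt β c x q (a + q) <
      ∑ x : V, (∑ y, (if β c y = a ∧ Full β c y then 1 else 0) *
        (if β y x = 0 then 1 else 0)) * (∑ y, (if β c y = q ∧ Full β c y then 1 else 0) *
        (if β y x = 0 then 1 else 0)) := by
    have hg : ∀ x p, p ∈ W → p ≠ 0 → Full β c x → Full β c (x + c) →
        cnt β c x p (a + q) ≤ ∑ y, (if β c y = p ∧ Full β c y then 1 else 0) *
        (if β y x = 0 then 1 else 0) := by
      intro x p hp hp0 hx hxc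
      rw [hgood x p (a + q) hp (hlW haW hq') hx hxc, ← hgood x p 0 hp W.zero_mem hx hxc]
      unfold cnt
      refine Finset.sum_le_sum fun y _ => ?_
      by_cases h1 : β c y = p
      · by_cases h2 : β x y = 0
        · rw [if_pos h1, if_pos h2, if_pos ⟨h1, hE x p y hx hxc hp hp0 h1 h2⟩,
            if_pos (by rw [symm]; exact h2)]
        · rw [if_neg h2, mul_zero]; exact Nat.zero_le _
      · rw [if_neg h1, zero_mul]; exact Nat.zero_le _
    apply Finset.sum_lt_sum
    · intro x _
      by_cases h : cnt β c x a (a + q) * cnt β c x q (a + q) = 0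
      · rw [h]; exact Nat.zero_le _
      · obtain ⟨hx, hxc⟩ := hgood1 x a q haW hq' hb hq0 haq h
        exact Nat.mul_le_mul (hg x a haW hb hx hxc) (hg x q hq' hq0 hx hxc)
    · refine ⟨0, Finset.mem_univ _, ?_⟩
      have h0 : cnt β c 0 a (a + q) * cnt β c 0 q (a + q) = 0 := by
        by_contra h
        exact hF0 (hgood1 0 a q haW hq' hb hq0 haq h).1
      rw [h0]
      apply Nat.mul_pos
      · apply Finset.sum_pos' (fun _ _ => Nat.zero_le _)
        exact ⟨b, Finset.mem_univ _, by rw [if_pos ⟨rfl, hUb⟩, map_zero, if_pos rfl]; simp⟩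
      · apply Finset.sum_pos' (fun _ _ => Nat.zero_le _)
        exact ⟨v, Finset.mem_univ _, by rw [if_pos ⟨hv1, hv2⟩, map_zero, if_pos rfl]; simp⟩
  rw [← f1, ← f2] at f3
  exact lt_irrefl _ f3

end Pool.Agent.KRad
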