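import Pool.Agent.KRad.Min.Defs

/-!
# Module M4: going down for group extensions and local type, when -1 is a square
-/

namespace Pool.Agent.KRad

open Pool.Agent.Hhelper2 Pool.Agent.Hhelper2.QuadExt Pool.Agent.Hhelper2.Tower Additive Module
open Pool.Agent.Hhelper2.FieldAx

universe u

namespace P3aux

/-- A functional on a quadratic extension whose kernel is the base field. -/
lemma exists_functional {K E : Type u} [Field K] [Field E] [Algebra K E]
    (hfin : finrank K E = 2) :
    ∃ s : E →ₗ[K] K, ∀ x, s x = 0 ↔ ∃ c : K, x = algebraMap K E c := by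
  have hfd : FiniteDimensional K E := FiniteDimensional.of_finrank_pos (by rw [hfin]; norm_num)
  have h1 : finrank K (Submodule.span K {(1 : E)}) = 1 := finrank_span_singleton one_ne_zero
  have h2 : finrank K (E ⧸ Submodule.span K {(1 : E)}) = 1 := by
    have := Submodule.finrank_quotient_add_finrank (Submodule.span K {(1 : E)})
    omega
  let φ : (E ⧸ Submodule.span K {(1 : E)}) ≃ₗ[K] K :=
    LinearEquiv.ofFinrankEq _ _ (by rw [h2, finrank_self])
  refine ⟨φ.toLinearMap ∘ₗ Submodule.mkQ _, fun x => ?_⟩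
  rw [LinearMap.comp_apply]
  show φ _ = 0 ↔ _
  rw [LinearEquiv.map_eq_zero_iff, Submodule.mkQ_apply, Submodule.Quotient.mk_eq_zero,
    Submodule.mem_span_singleton]
  constructor
  · rintro ⟨c, rfl⟩
    exact ⟨c, (Algebra.algebraMap_eq_smul_one c).symm⟩
  · rintro ⟨c, rfl⟩
    exact ⟨c, (Algebra.algebraMap_eq_smul_one c).symm⟩

lemma mul_gres {K E : Type u} [Field K] [Field E] [Algebra K E] (y : Eˣ) (f : Kˣ) :
    sqClass y * gres K E (sqClass f) = sqClass (y * Units.map (algebraMap K E).toMonoidHom f) :=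
  rfl

end P3aux

open P3aux

theorem lemmaS {K E : Type u} [Field K] [Field E] [Algebra K E] (h2 : (2 : K) ≠ 0)
    (hfin : finrank K E = 2) (y w : SqClass E) :
    ∃ f h : SqClass K, FieldSplit E (y * gres K E f) (w * gres K E h) := by
  have h2E : (2 : E) ≠ 0 := by
    have := (map_ne_zero (algebraMap K E)).2 h2
    rwa [map_ofNat] at this
  obtain ⟨s, hs⟩ := exists_functional (K := K) (E := E) hfin
  obtain ⟨y, rfl⟩ := exists_rep y
  obtain ⟨w, rfl⟩ := exists_rep w
  by_cases hy : s (y : E) = 0
  · obtain ⟨c, hc⟩ := (hs _).1 hy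
    have hc0 : c ≠ 0 := by
      rintro rfl
      exact y.ne_zero (by rw [hc, map_zero])
    refine ⟨sqClass (Units.mk0 c hc0), 1, ?_⟩
    rw [map_one, mul_one, mul_gres, split_mk]
    refine ⟨(algebraMap K E c)⁻¹, 0, ?_⟩
    have hcE : algebraMap K E c ≠ 0 := (map_ne_zero _).2 hc0
    have e : ((y * Units.map (algebraMap K E).toMonoidHom (Units.mk0 c hc0) : Eˣ) : E) =
        algebraMap K E c * algebraMap K E c := by
      rw [Units.val_mul, hc]; rfl
    rw [e]
    field_simp
    ring
  by_cases hyw : s ((y : E) * w) = 0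
  · obtain ⟨c, hc⟩ := (hs _).1 hyw
    have hc0 : c ≠ 0 := by
      rintro rfl
      have : (y : E) * w ≠ 0 := mul_ne_zero y.ne_zero w.ne_zero
      exact this (by rw [hc, map_zero])
    refine ⟨1, sqClass (Units.mk0 (-c) (neg_ne_zero.2 hc0)), ?_⟩
    rw [map_one, mul_one, mul_gres, split_mk]
    have e : ((w * Units.map (algebraMap K E).toMonoidHom (Units.mk0 (-c) (neg_ne_zero.2 hc0)) :
        Eˣ) : E) = - ((y : E) * w ^ 2) := by
      rw [Units.val_mul]
      show (w : E) * algebraMap K E (-c) = _
      rw [map_neg, ← hc]; ring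
    refine ⟨(1 + (y : E)⁻¹) / 2, (1 - (y : E)⁻¹) / (2 * w), ?_⟩
    rw [e]
    have hy0 : (y : E) ≠ 0 := y.ne_zero
    have hw0 : (w : E) ≠ 0 := w.ne_zero
    field_simp
    ring
  · set h0 : K := s (y : E) / s ((y : E) * w) with hh0
    have hh : h0 ≠ 0 := div_ne_zero hy hyw
    have hz : s ((y : E) * (1 - algebraMap K E h0 * w)) = 0 := by
      have e : (y : E) * (1 - algebraMap K E h0 * w) = (y : E) - h0 • ((y : E) * w) := by
        rw [Algebra.smul_def]; ring
      rw [e, map_sub, map_smul, smul_eq_mul, hh0]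
      field_simp
      ring
    obtain ⟨f0, hf0⟩ := (hs _).1 hz
    have e2 : ((w * Units.map (algebraMap K E).toMonoidHom (Units.mk0 h0 hh) : Eˣ) : E) =
        algebraMap K E h0 * w := by
      rw [Units.val_mul, mul_comm]; rfl
    by_cases hf : f0 = 0
    · refine ⟨1, sqClass (Units.mk0 h0 hh), ?_⟩
      rw [map_one, mul_one, mul_gres, split_mk]
      refine ⟨0, 1, ?_⟩
      rw [e2]
      rw [hf, map_zero] at hf0
      rcases mul_eq_zero.1 hf0 with h | h
      · exact absurd h y.ne_zero
      · rw [← sub_eq_zero.1 h]; ring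
    · refine ⟨sqClass (Units.mk0 f0 hf), sqClass (Units.mk0 h0 hh), ?_⟩
      rw [mul_gres, mul_gres, split_mk]
      refine ⟨(y : E)⁻¹, 1, ?_⟩
      have e1 : ((y * Units.map (algebraMap K E).toMonoidHom (Units.mk0 f0 hf) : Eˣ) : E) =
          (y : E) * algebraMap K E f0 := by
        rw [Units.val_mul]; rfl
      rw [e1, e2, ← hf0]
      have hy0 : (y : E) ≠ 0 := y.ne_zero
      field_simp
      ring

/-- When `-1` is a square, every class is a norm from its own quadratic extension. -/
lemma P3aux.sp_self {K : Type u} [Field K] (h2 : (2 : K) ≠ 0) (he : sqClass (-1 : Kˣ) = 1)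
    (x : VV K) : Sp K x x := by
  have h : FieldSplit K (toMul x) (sqClass (-1) * toMul x) :=
    (QStr.ofField_axioms K h2).neg (toMul x)
  rw [he, one_mul] at h
  exact h

theorem p3a {K E : Type u} [Field K] [Field E] {a : SqClass K} (q : QL K E a)
    (lemS : ∀ y w : SqClass E, ∃ f h : SqClass K, FieldSplit E (y * q.res f) (w * q.res h))
    (h2 : (2 : K) ≠ 0) [Finite (SqClass K)] (he : sqClass (-1 : Kˣ) = 1)
    (he' : sqClass (-1 : Eˣ) = 1) (ha : a ≠ 1)
    (g : VV E →ₗ[ZMod 2] ZMod 2) (hg : RigChar E g) : ∃ v : VV K, v ≠ 0 ∧ Rig K v := by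
  have two : ∀ x : ZMod 2, x ≠ 0 → x = 1 := by decide
  have hrE : ∀ x, g x = 1 → ∀ y, Sp E x y → y = 0 ∨ y = x := by
    intro x hx y hy
    rcases hg.rig x hx y hy with h | h
    · exact Or.inl h
    · right
      rw [h, he']
      exact zero_add x
  have dbl : ∀ x : VV K, x + x = 0 := fun x => Codim.add_self x
  have rigK : ∀ v : VV K, (∀ y, Sp K v y → y = 0 ∨ y = v) → Rig K v := by
    intro v h y hy
    rcases h y hy with h | h
    · exact Or.inl h
    · right
      rw [h, he]
      exact (zero_add v).symm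
  have raa : q.res a = 1 := (q.res_one a).2 (Or.inr rfl)
  by_cases hv : ∃ v : VV K, g (lin q.res v) = 1
  · obtain ⟨v, hv⟩ := hv
    have hv0 : v ≠ 0 := by
      rintro rfl
      rw [map_zero, map_zero] at hv
      exact zero_ne_one hv
    refine ⟨v, hv0, rigK v ?_⟩
    -- `(v, a)` is not split
    have hva : ¬ Sp K v (ofMul a) := by
      intro h
      obtain ⟨z, hz⟩ := q.range_nm a (sp_self h2 he (ofMul a))
      obtain ⟨t, ht⟩ := q.principle (toMul v) z (by rw [hz]; exact h)
      have h3 : q.nm (z * q.res t) = a := by rw [map_mul, hz, q.nm_res, mul_one]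
      rcases hrE _ hv (ofMul (z * q.res t)) ht with h | h
      · have h4 : z * q.res t = 1 := h
        rw [h4, map_one] at h3
        exact ha h3.symm
      · have h4 : z * q.res t = q.res (toMul v) := h
        rw [h4, q.nm_res] at h3
        exact ha h3.symm
    intro y hy
    have h1 : Sp E (lin q.res v) (lin q.res y) := q.res_split _ _ hy
    rcases hrE _ hv _ h1 with h | h
    · rcases (q.res_one (toMul y)).1 h with h | h
      · exact Or.inl h
      · exfalso
        apply hva
        have : y = ofMul a := h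
        rw [← this]; exact hy
    · have h3 : lin q.res (y + v) = 0 := by
        rw [map_add, h]; exact Codim.add_self _
      rcases (q.res_one (toMul (y + v))).1 h3 with h4 | h4
      · right
        have h5 : y + v = 0 := h4
        calc y = (y + v) + v := by rw [add_assoc, dbl, add_zero]
          _ = v := by rw [h5, zero_add]
      · exfalso
        apply hva
        have h5 : y + v = ofMul a := h4
        rw [← h5]
        exact sp_add_right h2 hy (sp_self h2 he v)
  · push Not at hv
    have hres : ∀ v : VV K, g (lin q.res v) = 0 := by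
      intro v
      by_contra h
      exact hv v (two _ h)
    obtain ⟨ρ, hρ⟩ : ∃ ρ, g ρ = 1 := by
      by_contra h
      push Not at h
      apply hg.ne
      ext x
      by_contra hx
      exact h x (two _ hx)
    refine ⟨ofMul a, fun h => ha h, rigK _ ?_⟩
    have key : ∀ n : VV K, Sp K (ofMul a) n → n = 0 ∨ n = lin q.nm ρ := by
      intro n hn
      obtain ⟨w, hw⟩ := q.range_nm (toMul n) hn
      obtain ⟨f, t, hft⟩ := lemS (toMul ρ) w
      have hn' : q.nm (w * q.res t) = toMul n := by rw [map_mul, hw, q.nm_res, mul_one]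
      have hg1 : g (ρ + lin q.res (ofMul f)) = 1 := by
        rw [map_add, hρ, hres, add_zero]
      rcases hrE (ρ + lin q.res (ofMul f)) hg1 (ofMul (w * q.res t)) hft with h | h
      · left
        have h4 : w * q.res t = 1 := h
        rw [h4, map_one] at hn'
        exact hn'.symm
      · right
        have h4 : w * q.res t = toMul ρ * q.res f := h
        rw [h4, map_mul, q.nm_res, mul_one] at hn'
        exact hn'.symm
    intro y hy
    rcases key (ofMul a) (sp_self h2 he _) with h | h
    · exact absurd h ha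
    · rw [h]
      exact key y hy

theorem p3b {K E : Type u} [Field K] [Field E] {a : SqClass K} (q : QL K E a)
    (h2 : (2 : K) ≠ 0) [Finite (SqClass K)] (he : sqClass (-1 : Kˣ) = 1) (ha : a ≠ 1)
    (hR : ∀ x : VV K, sv K x = 0 → x = 0) (hE : LocT E) : LocT K := by
  have := finite_ext q.toQE
  obtain ⟨Q, _, _, _, β, hSp, symm, cs⟩ := exists_symbol K h2
  obtain ⟨QE', _, _, _, βE, hSpE, symmE, -⟩ := exists_symbol E q.two_ne
  have hRpos : ∀ x : VV K, x ≠ 0 → 1 ≤ sv K x := by
    intro x hx
    by_contra h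
    exact hx (hR x (by omega))
  have ha0 : (ofMul a : VV K) ≠ 0 := fun h => ha h
  -- the rank of `a`
  have hsa : sv K (ofMul a) = 1 := by
    obtain ⟨y, hy⟩ := q.range_nm a (sp_self h2 he (ofMul a))
    have hy0 : (ofMul y : VV E) ≠ 0 := by
      intro h
      have h4 : y = 1 := h
      rw [h4, map_one] at hy
      exact ha hy.symm
    have h1 : sv E (ofMul y) = 1 := hE _ hy0
    have h3 := sv_add_finrank_ker β hSp (ofMul a)
    have h4 := sv_eq_finrank_range βE hSpE (ofMul y)
    have h5 := LinearMap.finrank_range_add_finrank_ker ((βE (ofMul y)) ∘ₗ (lin q.res))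
    change _ = finrank (ZMod 2) (VV K) at h5
    have h6 : finrank (ZMod 2) (LinearMap.range ((βE (ofMul y)) ∘ₗ (lin q.res))) ≤
        finrank (ZMod 2) (LinearMap.range (βE (ofMul y))) :=
      Submodule.finrank_mono (LinearMap.range_comp_le_range _ _)
    have h7 : finrank (ZMod 2) (LinearMap.ker ((βE (ofMul y)) ∘ₗ (lin q.res))) ≤
        finrank (ZMod 2) (LinearMap.ker (β (ofMul a))) := by
      apply Submodule.finrank_mono
      intro u hu
      rw [LinearMap.mem_ker, LinearMap.comp_apply] at hu
      rw [LinearMap.mem_ker]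
      have h8 : βE (lin q.res u) (ofMul y) = 0 := by rw [symmE]; exact hu
      have h9 := q.proj (toMul u) y ((hSpE _ _).1 h8)
      rw [hy] at h9
      have h10 : β u (ofMul a) = 0 := (hSp _ _).2 h9
      rw [symm]; exact h10
    have h8 := hRpos _ ha0
    omega
  intro x hx
  by_cases hxa : x = ofMul a
  · rw [hxa]; exact hsa
  have hxa' : x + ofMul a ≠ 0 := by
    intro h
    apply hxa
    exact Codim.eq_of_add_eq_zero h
  have hr : (lin q.res x) ≠ 0 := by
    intro h
    rcases (q.res_one (toMul x)).1 h with h | h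
    · exact hx h
    · exact hxa h
  have h1 := sv_step h2 q.toQE x
  have h3 := hE _ hr
  have h4 := hRpos _ hx
  have h5 := hRpos _ hxa'
  have h6 : sv E (lin q.toQE.res x) = 1 := h3
  omega

end Pool.Agent.KRad
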