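import Pool.Agent.KRad.Min.Defs
import Pool.Agent.Hhelper2.SmallG

/-!
# Module M2: classes of rank one, for fields without independent pairs
-/

namespace Pool.Agent.KRad

open Pool.Agent.Hhelper2 Pool.Agent.Hhelper2.QuadExt Pool.Agent.Hhelper2.Tower Additive Module
open Pool.Agent.Hhelper2.FieldAx Pool.Agent.Hhelper2.SmallEl

universe u

/-- Two classes with trivially intersecting value groups whose kernels generate everything are
independent. -/
theorem sv_add_of_indep {K : Type u} [Field K] [Finite (SqClass K)] {Q : Type u} [AddCommGroup Q]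
    [Module (ZMod 2) Q] (β : VV K →ₗ[ZMod 2] VV K →ₗ[ZMod 2] Q)
    (hβ : ∀ x y, β x y = 0 ↔ Sp K x y) {x y : VV K}
    (h1 : ∀ z, β x z = β y z → β x z = 0)
    (h3 : ∀ v, ∃ z, β y z = 0 ∧ β x (v + z) = 0) :
    sv K (x + y) = sv K x + sv K y := by
  have e1 := sv_add_finrank_ker β hβ x
  have e2 := sv_add_finrank_ker β hβ y
  have e3 := sv_add_finrank_ker β hβ (x + y)
  have e4 : LinearMap.ker (β (x + y)) = LinearMap.ker (β x) ⊓ LinearMap.ker (β y) := by
    ext z
    rw [Submodule.mem_inf, LinearMap.mem_ker, LinearMap.mem_ker, LinearMap.mem_ker, map_add,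
      LinearMap.add_apply]
    constructor
    · intro h
      have h4 : β x z = β y z := Codim.eq_of_add_eq_zero h
      have h5 := h1 z h4
      exact ⟨h5, by rw [← h4, h5]⟩
    · rintro ⟨h4, h5⟩
      rw [h4, h5, add_zero]
  have e5 : LinearMap.ker (β x) ⊔ LinearMap.ker (β y) = ⊤ := by
    rw [eq_top_iff]
    intro v _
    obtain ⟨z, hz1, hz2⟩ := h3 v
    have e6 : v = (v + z) + z := by rw [add_assoc, Codim.add_self, add_zero]
    rw [e6]
    exact Submodule.add_mem_sup hz2 hz1
  have e7 := Submodule.finrank_sup_add_finrank_inf_eq (LinearMap.ker (β x)) (LinearMap.ker (β y))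
  rw [e5, ← e4, finrank_top] at e7
  omega

/-- Version for a class `x` with values in `{0, q}`. -/
theorem sv_add_of_small {K : Type u} [Field K] [Finite (SqClass K)] {Q : Type u} [AddCommGroup Q]
    [Module (ZMod 2) Q] (β : VV K →ₗ[ZMod 2] VV K →ₗ[ZMod 2] Q)
    (hβ : ∀ x y, β x y = 0 ↔ Sp K x y) {x y : VV K} {q : Q} (hx : ∀ z, β x z = 0 ∨ β x z = q)
    (h1 : ∀ z, β y z ≠ q) (h3 : ∃ z, β y z = 0 ∧ β x z = q) :
    sv K (x + y) = sv K x + sv K y := by
  apply sv_add_of_indep β hβ
  · intro z h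
    rcases hx z with h4 | h4
    · exact h4
    · exact absurd (h.symm.trans h4) (h1 z)
  · intro v
    rcases hx v with h4 | h4
    · exact ⟨0, map_zero _, by rw [add_zero]; exact h4⟩
    · obtain ⟨z, hz1, hz2⟩ := h3
      exact ⟨z, hz1, by rw [map_add, h4, hz2, Codim.add_self]⟩

/-- Module M2. -/
theorem conn_small {K : Type u} [Field K] (h2 : (2 : K) ≠ 0) [Finite (SqClass K)] (hK : Conn K)
    (he : sqClass (-1 : Kˣ) = 1) (x : VV K) (hx : sv K x = 1) :
    LocT K ∨ ∃ g, RigChar K g := by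
  obtain ⟨Q, _, _, _, β, hβ, symm, cs⟩ := exists_symbol K h2
  have hne : (ofMul (sqClass (-1 : Kˣ)) : VV K) = 0 := by
    rw [he]
    rfl
  -- independence implies triviality
  have indep : ∀ (u w : VV K) (q : Q), q ≠ 0 → (∀ z, β u z = 0 ∨ β u z = q) →
      (∀ z, β w z ≠ q) → (∃ z, β w z = 0 ∧ β u z = q) → w = 0 := by
    intro u w q hq h3 h4 h5
    rcases hK u w (sv_add_of_small β hβ h3 h4 h5) with h6 | h6
    · exfalso
      obtain ⟨z, -, hz⟩ := h5
      rw [h6, map_zero, LinearMap.zero_apply] at hz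
      exact hq hz.symm
    · exact h6
  have P : Pre β (ofMul (sqClass (-1 : Kˣ)) : VV K) := by
    refine ⟨symm, cs, fun x => ?_⟩
    have h3 : β x (ofMul (sqClass (-1)) + x) = 0 :=
      (hβ x _).2 ((QStr.ofField_axioms K h2).neg _)
    rw [map_add] at h3
    exact (Codim.eq_of_add_eq_zero h3).symm
  -- the value of `x`
  obtain ⟨q, hq, hval⟩ : ∃ q : Q, q ≠ 0 ∧ ((∀ y, β x y = 0 ∨ β x y = q) ∧ ∃ y, β x y = q) := by
    rw [sv_eq_finrank_range β hβ, finrank_eq_one_iff'] at hx
    obtain ⟨⟨q, y0, hy0⟩, hq, hall⟩ := hx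
    refine ⟨q, fun h => hq (Subtype.ext h), fun y => ?_, y0, hy0⟩
    obtain ⟨c, hc⟩ := hall ⟨β x y, y, rfl⟩
    have hc' : c • q = β x y := congrArg Subtype.val hc
    have key : ∀ c : ZMod 2, c = 0 ∨ c = 1 := by decide
    rcases key c with rfl | rfl
    · left
      rw [← hc', zero_smul]
    · right
      rw [← hc', one_smul]
  have S : Sm β x q := ⟨hq, hval.1, hval.2⟩
  have hW0 : ∀ w, InW β x q w → w = 0 := by
    intro w hw
    obtain ⟨g, hg1, hg2⟩ := w4' S hw
    exact indep x w q hq S.small (fun z hz => hw.1 ⟨z, hz⟩) ⟨g, hg1, hg2⟩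
  obtain ⟨B, hB, -⟩ := Codim.exists_sep hq hq
  have T : Tw β x q := by
    constructor
    · rintro d ⟨y, hy⟩
      obtain ⟨y0, hy0⟩ := S.ex
      obtain ⟨z, h3, h4⟩ := P.cs' hy hy0
      refine ⟨z, fun w hw => ?_, h3, h4⟩
      rw [hW0 w hw, map_zero, LinearMap.zero_apply]
    · refine ⟨B, hB, fun w hw y => ?_⟩
      rw [hW0 w hw, map_zero, LinearMap.zero_apply, map_zero]
  by_cases hN : ∀ u ∈ Codim.Lq β q, ∀ n ∈ Codim.Lq β q, β u n ≠ q
  · -- the group extension case
    right
    obtain ⟨A, W', hE⟩ := exists_extF P S T hN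
    obtain ⟨t, htA, ht⟩ := hE.t
    have hW' : ∀ w ∈ W', w = 0 := by
      intro w hw
      refine indep x w q hq S.small (fun z hz => ?_) ⟨t, ?_, ht⟩
      · have h3 : β x t = 0 := hE.ind x hE.mA w hw t z (by rw [ht, hz])
        rw [ht] at h3
        exact hq h3
      · rw [symm]
        exact hE.orth t htA w hw
    have hA : ∀ a : VV K, a ∈ A := by
      intro a
      have h3 : a ∈ A ⊔ W' := by rw [hE.sup]; trivial
      obtain ⟨a', ha', w, hw, rfl⟩ := Submodule.mem_sup.1 h3
      rw [hW' w hw, add_zero]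
      exact ha'
    refine ⟨B ∘ₗ β x, ?_, ?_, ?_⟩
    · intro h
      have h3 := LinearMap.congr_fun h t
      rw [LinearMap.comp_apply, ht, hB, LinearMap.zero_apply] at h3
      exact one_ne_zero h3
    · rw [hne, map_zero]
    · intro a ha y hy
      have hxa : β x a = q := by
        rcases S.small a with h3 | h3
        · rw [LinearMap.comp_apply, h3, map_zero] at ha
          exact absurd ha zero_ne_one
        · exact h3
      rcases hE.nt a (hA a) hxa y ((hβ a y).2 hy) with h3 | h3
      · exact Or.inl (hW' y h3)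
      · exact Or.inr (Codim.eq_of_add_eq_zero (hW' _ h3))
  · -- the local case
    left
    push Not at hN
    obtain ⟨u, hu, n, hn, hun⟩ := hN
    obtain ⟨W, b, hS⟩ := LocalCore.field_splits h2
      (fun a b => hβ (ofMul a) (ofMul b)) symm cs hq hu hn hun
    have hW : ∀ w ∈ W, w = 0 := by
      intro w hw
      refine indep u w q hq hu ((hS.memW w).1 hw) ⟨n, ?_, hun⟩
      rw [symm]
      exact hS.orth symm hn hw
    have hall : ∀ a y : VV K, β a y = 0 ∨ β a y = q := by
      intro a
      have h3 : a ∈ Codim.Lq β q ⊔ W := by rw [hS.sup]; trivial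
      obtain ⟨a', ha', w, hw, rfl⟩ := Submodule.mem_sup.1 h3
      rw [hW w hw, add_zero]
      exact ha'
    intro a ha
    have h4 : sv K a ≠ 0 := fun h => ha (hK.radical h2 h)
    have h5 : sv K a ≤ 1 := by
      rw [sv_eq_finrank_range β hβ]
      have h6 : ∃ y, β a y = q := by
        by_contra hcon
        apply h4
        rw [sv_eq_zero_iff h2]
        intro y
        rw [← hβ]
        rcases hall a y with h7 | h7
        · exact h7
        · exact absurd ⟨y, h7⟩ hcon
      obtain ⟨y0, hy0⟩ := h6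
      refine finrank_le_one (⟨q, y0, hy0⟩ : LinearMap.range (β a)) ?_
      rintro ⟨_, y, rfl⟩
      rcases hall a y with h7 | h7
      · refine ⟨0, ?_⟩
        apply Subtype.ext
        rw [zero_smul]
        exact h7.symm
      · refine ⟨1, ?_⟩
        apply Subtype.ext
        rw [one_smul]
        exact h7.symm
    omega

end Pool.Agent.KRad
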