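import Mathlib

/-!
# Fields which are rigid modulo a subgroup

`T` is (the set of elements of) a subgroup of `Fˣ` which contains `-1` and all squares, such that
`1 - x ∈ T ∪ x T` for all `x ∉ T`.  An element `x ∉ T` is small if `1 - x ∈ T`.
-/

namespace Pool.Agent.KRad

variable {F : Type*} [Field F] {T : F → Prop}

/-- Rigidity modulo a subgroup. -/
structure TRig (T : F → Prop) : Prop where
  ne : ∀ {x}, T x → x ≠ 0
  mul : ∀ {x y}, T x → T y → T (x * y)
  sq : ∀ {x}, x ≠ 0 → T (x ^ 2)
  neg : T (-1)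
  rig : ∀ {x}, x ≠ 0 → ¬ T x → T (1 - x) ∨ T (x * (1 - x))

/-- Small elements. -/
def Sml (T : F → Prop) (x : F) : Prop := x ≠ 0 ∧ ¬ T x ∧ T (1 - x)

namespace TRig

variable (H : TRig T)
include H

theorem one : T 1 := by
  have := H.sq (x := (1 : F)) one_ne_zero
  simpa using this

theorem inv {x : F} (hx : T x) : T x⁻¹ := by
  have h := H.mul hx (H.sq (inv_ne_zero (H.ne hx)))
  have e : x * x⁻¹ ^ 2 = x⁻¹ := by
    have := H.ne hx
    field_simp
  rwa [e] at h

theorem div {x y : F} (hx : T x) (hy : T y) : T (x / y) := by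
  rw [div_eq_mul_inv]
  exact H.mul hx (H.inv hy)

theorem neg' {x : F} (hx : T x) : T (-x) := by
  have := H.mul H.neg hx
  rwa [neg_one_mul] at this

/-- Cancellation. -/
theorem of_mul {x y : F} (hx : T x) (hxy : T (x * y)) : T y := by
  have h := H.mul (H.inv hx) hxy
  rwa [inv_mul_cancel_left₀ (H.ne hx)] at h

theorem of_mul' {x y : F} (hx : T x) (hxy : T (y * x)) : T y := by
  rw [mul_comm] at hxy
  exact H.of_mul hx hxy

theorem mul_iff {x y : F} (hx : T x) : T (x * y) ↔ T y := ⟨H.of_mul hx, H.mul hx⟩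

/-- `x ~ y`, `y ~ z` imply `x ~ z`. -/
theorem trans {x y z : F} (h : T (x * y)) (h' : T (y * z)) : T (x * z) := by
  have hy : y ≠ 0 := fun h0 => H.ne h (by rw [h0, mul_zero])
  have h3 := H.div (H.mul h h') (H.sq hy)
  have e : x * y * (y * z) / y ^ 2 = x * z := by field_simp
  rwa [e] at h3

theorem inv_not {x : F} (hx0 : x ≠ 0) (hx : ¬ T x) : ¬ T x⁻¹ := fun h => hx (by
  have := H.inv h
  rwa [inv_inv] at this)

/-- Exactly one of `x`, `x⁻¹` is small. -/
theorem s0 {x : F} (hx0 : x ≠ 0) (hx : ¬ T x) : Sml T x ∨ Sml T x⁻¹ := by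
  rcases H.rig hx0 hx with h | h
  · exact Or.inl ⟨hx0, hx, h⟩
  · refine Or.inr ⟨inv_ne_zero hx0, H.inv_not hx0 hx, ?_⟩
    have h3 := H.neg' (H.div h (H.sq hx0))
    have e : -(x * (1 - x) / x ^ 2) = 1 - x⁻¹ := by field_simp; ring
    rwa [e] at h3

theorem s0' {x : F} (h : Sml T x) (h' : Sml T x⁻¹) : False := by
  have h3 := H.neg' (H.div h.2.2 h'.2.2)
  have h1 : (1 - x⁻¹) ≠ 0 := H.ne h'.2.2
  have e : -((1 - x) / (1 - x⁻¹)) = x := by
    have := h.1
    have h4 : x - 1 ≠ 0 := by
      intro h5
      apply H.ne h.2.2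
      linear_combination -h5
    field_simp
    ring
  rw [e] at h3
  exact h.2.1 h3

/-- Products of small elements of different classes. -/
theorem l1 {x y : F} (hx : Sml T x) (hy : Sml T y) (hxy : ¬ T (x * y)) : Sml T (x * y) := by
  refine ⟨mul_ne_zero hx.1 hy.1, hxy, ?_⟩
  have key : ∀ {x y : F}, Sml T x → Sml T y → T (1 - x * y) ∨ T (x * (1 - x * y)) := by
    intro x y hx hy
    set w := -(x * (1 - y) / (1 - x)) with hw
    have h1x : (1 - x) ≠ 0 := H.ne hx.2.2
    have h1y : (1 - y) ≠ 0 := H.ne hy.2.2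
    have hw0 : w ≠ 0 := neg_ne_zero.2 (div_ne_zero (mul_ne_zero hx.1 h1y) h1x)
    have hxw : T (x * w) := by
      have h3 := H.neg' (H.mul (H.sq hx.1) (H.div hy.2.2 hx.2.2))
      have e : -(x ^ 2 * ((1 - y) / (1 - x))) = x * w := by rw [hw]; ring
      rwa [e] at h3
    have hwT : ¬ T w := fun h => hx.2.1 (H.of_mul' h hxw)
    have e1 : 1 - x * y = (1 - x) * (1 - w) := by
      rw [hw]; field_simp; ring
    rcases H.rig hw0 hwT with h | h
    · left
      rw [e1]
      exact H.mul hx.2.2 h
    · right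
      rw [e1]
      have h3 := H.mul hx.2.2 (H.trans hxw h)
      have e2 : (1 - x) * (x * (1 - w)) = x * ((1 - x) * (1 - w)) := by ring
      rwa [e2] at h3
  rcases key hx hy with h | h
  · exact h
  · rcases key hy hx with h3 | h3
    · rwa [mul_comm y x] at h3
    · exfalso
      apply hxy
      rw [mul_comm y x] at h3
      have h4 : T ((1 - x * y) * y) := by rw [mul_comm]; exact h3
      exact H.trans h h4

/-- Multiplication with `1 - u`, for `x, u` small of different classes. -/
theorem l2 {x u : F} (hx : Sml T x) (hu : Sml T u) (hxu : ¬ T (x * u)) :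
    Sml T (x * (1 - u)) ∧ Sml T (x / (1 - u)) := by
  have h1u : (1 - u) ≠ 0 := H.ne hu.2.2
  have h1x : (1 - x) ≠ 0 := H.ne hx.2.2
  have hp := H.l1 hx hu hxu
  have n1 : ¬ T (x * (1 - u)) := fun h => hx.2.1 (H.of_mul' hu.2.2 h)
  have n2 : ¬ T (x / (1 - u)) := fun h => hx.2.1 (by
    have := H.mul h hu.2.2
    rwa [div_mul_cancel₀ _ h1u] at this)
  have m1 : x * (1 - u) ≠ 0 := mul_ne_zero hx.1 h1u
  have m2 : x / (1 - u) ≠ 0 := div_ne_zero hx.1 h1u
  refine ⟨⟨m1, n1, ?_⟩, ⟨m2, n2, ?_⟩⟩
  · -- first decomposition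
    rcases H.rig m1 n1 with h | h
    · exact h
    · -- second decomposition
      have e : 1 - x * (1 - u) = (1 - x) * (1 - -(x * u) / (1 - x)) := by
        field_simp; ring
      set w := -(x * u) / (1 - x) with hw
      have hw0 : w ≠ 0 := div_ne_zero (neg_ne_zero.2 hp.1) h1x
      have hwu : T (x * u * w) := by
        have h3 := H.neg' (H.div (H.sq hp.1) hx.2.2)
        have e : -((x * u) ^ 2 / (1 - x)) = x * u * w := by rw [hw]; ring
        rwa [e] at h3
      have hwT : ¬ T w := fun h => hxu (H.of_mul' h hwu)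
      rcases H.rig hw0 hwT with h3 | h3
      · rw [e]
        exact H.mul hx.2.2 h3
      · exfalso
        -- `x (1-u) (1 - x(1-u)) ∈ T` and `w (1-w) ∈ T`
        have h4 : T (w * (1 - x * (1 - u))) := by
          have h5 := H.mul hx.2.2 h3
          have e2 : (1 - x) * (w * (1 - w)) = w * ((1 - x) * (1 - w)) := by ring
          rw [e2, ← e] at h5
          exact h5
        have h5 : T (x * (1 - u) * w) := by
          have h6 : T ((1 - x * (1 - u)) * w) := by rw [mul_comm]; exact h4
          exact H.trans h h6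
        have h6 : T (x * w) := by
          have h7 := H.div h5 hu.2.2
          have e3 : x * (1 - u) * w / (1 - u) = x * w := by field_simp
          rwa [e3] at h7
        have h7 : T (w * x) := by rw [mul_comm]; exact h6
        have h8 := H.trans hwu h7
        have e4 : x * u * x = x ^ 2 * u := by ring
        rw [e4] at h8
        exact hu.2.1 (H.of_mul (H.sq hx.1) h8)
  · rcases H.rig m2 n2 with h | h
    · exact h
    · have e : 1 - x / (1 - u) = (1 - x) * (1 - u / (1 - x)) / (1 - u) := by
        field_simp; ring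
      set w := u / (1 - x) with hw
      have hw0 : w ≠ 0 := div_ne_zero hu.1 h1x
      have hwu : T (u * w) := by
        have h3 := H.div (H.sq hu.1) hx.2.2
        have e : u ^ 2 / (1 - x) = u * w := by rw [hw]; ring
        rwa [e] at h3
      have hwT : ¬ T w := fun h => hu.2.1 (H.of_mul' h hwu)
      rcases H.rig hw0 hwT with h3 | h3
      · rw [e]
        exact H.div (H.mul hx.2.2 h3) hu.2.2
      · exfalso
        have h4 : T (w * (1 - x / (1 - u))) := by
          have h5 := H.div (H.mul hx.2.2 h3) hu.2.2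
          have e2 : (1 - x) * (w * (1 - w)) / (1 - u) = w * ((1 - x) * (1 - w) / (1 - u)) := by ring
          rw [e2, ← e] at h5
          exact h5
        have h5 : T (x / (1 - u) * w) := by
          have h6 : T ((1 - x / (1 - u)) * w) := by rw [mul_comm]; exact h4
          exact H.trans h h6
        have h6 : T (x * w) := by
          have h7 := H.mul h5 hu.2.2
          have e3 : x / (1 - u) * w * (1 - u) = x * w := by field_simp
          rwa [e3] at h7
        have h7 : T (w * u) := by rw [mul_comm]; exact hwu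
        exact hxu (H.trans h6 h7)

end TRig

end Pool.Agent.KRad
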