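import Pool.Agent.KRad.Min.TRig

/-!
# Bad elements, and the norm group of a class
-/

namespace Pool.Agent.KRad

variable {F : Type*} [Field F] {T : F → Prop}

/-- Bad elements: small, and larger than all small elements of other classes. -/
def Bad (T : F → Prop) (z : F) : Prop := Sml T z ∧ ∀ h, Sml T h → ¬ T (h * z) → Sml T (h / z)

namespace TRig

variable (H : TRig T)
include H

theorem div_iff {x y : F} (hy : y ≠ 0) : T (x / y) ↔ T (x * y) := by
  have e : x * y = x / y * y ^ 2 := by field_simp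
  rw [e]
  constructor
  · intro h; exact H.mul h (H.sq hy)
  · intro h; exact H.of_mul' (H.sq hy) h

omit H in
theorem comm {x y : F} (h : ¬ T (x * y)) : ¬ T (y * x) := by rwa [mul_comm]

theorem bad_unique {z z' : F} (h : Bad T z) (h' : Bad T z') : T (z * z') := by
  by_contra hcon
  have h1 := h.2 z' h'.1 (TRig.comm hcon)
  have h3 := h'.2 z h.1 hcon
  rw [← inv_div] at h3
  exact H.s0' h1 h3

/-- Auxiliary elements for elements which are not bad. -/
theorem aux {z : F} (hz : Sml T z) (hb : ¬ Bad T z) : ∃ h, Sml T h ∧ ¬ T (h * z) ∧ Sml T (z / h) := by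
  unfold Bad at hb
  push Not at hb
  obtain ⟨h, h1, h3, h4⟩ := hb hz
  refine ⟨h, h1, h3, ?_⟩
  rcases H.s0 (div_ne_zero h1.1 hz.1) (fun h5 => h3 ((H.div_iff hz.1).1 h5)) with h5 | h5
  · exact absurd h5 h4
  · rwa [inv_div] at h5

/-- The sign lemma. -/
theorem small_neg {z : F} (hz : Sml T z) (hb : ¬ Bad T z) : Sml T (-z) := by
  obtain ⟨h, h1, h3, h4⟩ := H.aux hz hb
  by_contra hcon
  have n1 : ¬ T (-z) := fun h5 => hz.2.1 (by
    have := H.neg' h5
    rwa [neg_neg] at this)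
  have h5 : Sml T (-z)⁻¹ := (H.s0 (neg_ne_zero.2 hz.1) n1).resolve_left hcon
  have h1' := h1.1
  have hz' := hz.1
  have h6 : Sml T (-h⁻¹) := by
    have e : (-z)⁻¹ * (z / h) = -h⁻¹ := by field_simp
    have := H.l1 h5 h4 (by
      rw [e]
      intro h7
      have h8 := H.neg' h7
      rw [neg_neg] at h8
      exact H.inv_not h1.1 h1.2.1 h8)
    rwa [e] at this
  have h7 : Sml T (z * h) := H.l1 hz h1 (TRig.comm h3)
  have h8 : Sml T (z * h)⁻¹ := by
    have e : (-z)⁻¹ * -h⁻¹ = (z * h)⁻¹ := by field_simp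
    have := H.l1 h5 h6 (by
      rw [e]
      exact H.inv_not h7.1 h7.2.1)
    rwa [e] at this
  exact H.s0' h7 h8

end TRig

/-- The data: `T` is the norm group `D⟨1, -c⟩`. -/
structure CSet (T : F → Prop) (c : F) : Prop extends TRig T where
  cT : ∀ x, T x ↔ x ≠ 0 ∧ ∃ p q : F, x = p ^ 2 - c * q ^ 2
  tc : T c
  cns : ¬ IsSquare c
  h1 : ∀ τ x, T τ → ¬ IsSquare τ → ¬ IsSquare (c * τ) → x ≠ 0 → ¬ T x →
    (∃ p q : F, τ = p ^ 2 - x * q ^ 2) →
    ∃ y, y ≠ 0 ∧ ¬ T y ∧ ∃ p q : F, c * τ = p ^ 2 - y * q ^ 2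

/-- Squares. -/
theorem sq_mul {x y z : F} (hy : y ≠ 0) (h : IsSquare (x * y)) (h' : IsSquare (y * z)) :
    IsSquare (x * z) := by
  obtain ⟨r, hr⟩ := h
  obtain ⟨s, hs⟩ := h'
  refine ⟨r * s / y, ?_⟩
  have e : x * z = (x * y) * (y * z) / y ^ 2 := by field_simp
  rw [e, hr, hs]
  field_simp

namespace CSet

variable {c : F} (H : CSet T c)
include H

theorem c0 : c ≠ 0 := H.ne H.tc

theorem of_sq {x : F} (hx : x ≠ 0) (h : IsSquare (c * (1 - x))) : T x := by
  obtain ⟨r, hr⟩ := h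
  rw [H.cT]
  refine ⟨hx, 1, r / c, ?_⟩
  have hc := H.c0
  field_simp
  linear_combination -hr

theorem not_sq_c {a : F} (ha : Sml T a) : ¬ IsSquare (c * (1 - a)) := fun h =>
  ha.2.1 (H.of_sq ha.1 h)

/-- Representation by small elements. -/
theorem repr {τ x : F} (hτ : T τ) (hns : ¬ IsSquare τ) (hx : x ≠ 0) (hxT : ¬ T x)
    (h : ∃ p q : F, τ = p ^ 2 - x * q ^ 2) :
    ∃ a, Sml T a ∧ T (a * x) ∧ IsSquare (τ * (1 - a)) := by
  obtain ⟨p, q, h⟩ := h
  have hq : q ≠ 0 := by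
    rintro rfl
    exact hns ⟨p, by rw [h]; ring⟩
  have hp : p ≠ 0 := by
    rintro rfl
    apply hxT
    have h3 := H.neg' hτ
    have e : -τ = x * q ^ 2 := by rw [h]; ring
    rw [e] at h3
    exact H.of_mul' (H.sq hq) h3
  set a := x * q ^ 2 / p ^ 2 with ha
  have ha0 : a ≠ 0 := div_ne_zero (mul_ne_zero hx (pow_ne_zero 2 hq)) (pow_ne_zero 2 hp)
  have hax : T (a * x) := by
    have h3 := H.sq (x := x * q / p) (div_ne_zero (mul_ne_zero hx hq) hp)
    have e : (x * q / p) ^ 2 = a * x := by rw [ha]; field_simp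
    rwa [e] at h3
  have e1 : 1 - a = τ / p ^ 2 := by rw [ha, h]; field_simp
  refine ⟨a, ⟨ha0, fun h3 => hxT (H.of_mul h3 hax), ?_⟩, hax, ?_⟩
  · rw [e1]
    exact H.div hτ (H.sq hp)
  · refine ⟨τ / p, ?_⟩
    rw [e1]
    field_simp

/-- The sum of the classes of `1 - a` and `1 - b`. -/
theorem l3 {a b : F} (ha : Sml T a) (hb : Sml T b) (hba : Sml T (b / a)) :
    ∃ θ, T θ ∧ 1 - a * θ = (1 - a) / (1 - b) := by
  have h1b : (1 - b) ≠ 0 := H.ne hb.2.2
  have ha0 := ha.1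
  refine ⟨(1 - b / a) / (1 - b), H.div hba.2.2 hb.2.2, ?_⟩
  field_simp
  ring

theorem l4' {a b : F} (ha : Sml T a) (hb : Sml T b) (hba : Sml T (b / a)) :
    ¬ IsSquare (c * ((1 - a) * (1 - b))) := by
  obtain ⟨θ, hθ, h⟩ := H.l3 ha hb hba
  have h1b : (1 - b) ≠ 0 := H.ne hb.2.2
  rintro ⟨r, hr⟩
  have h3 : T (a * θ) := by
    apply H.of_sq (mul_ne_zero ha.1 (H.ne hθ))
    rw [h]
    refine ⟨r / (1 - b), ?_⟩
    have e : c * ((1 - a) / (1 - b)) = c * ((1 - a) * (1 - b)) / (1 - b) ^ 2 := by field_simp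
    rw [e, hr]
    field_simp
  exact ha.2.1 (H.of_mul' hθ h3)

theorem l4 {a b : F} (ha : Sml T a) (hb : Sml T b) (hab : ¬ T (a * b)) :
    ¬ IsSquare (c * ((1 - a) * (1 - b))) := by
  have h3 : ¬ T (b / a) := fun h => hab (by
    rw [mul_comm]
    exact (H.div_iff ha.1).1 h)
  rcases H.s0 (div_ne_zero hb.1 ha.1) h3 with h | h
  · exact H.l4' ha hb h
  · rw [inv_div] at h
    have := H.l4' hb ha h
    rwa [mul_comm (1 - b)] at this

/-- Uniqueness of the class attached to an element of `T`. -/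
theorem uniq {τ x x' : F} (hτ : T τ) (hns : ¬ IsSquare τ) (hx : x ≠ 0) (hxT : ¬ T x)
    (h : ∃ p q : F, τ = p ^ 2 - x * q ^ 2) (hx' : x' ≠ 0) (hxT' : ¬ T x')
    (h' : ∃ p q : F, τ = p ^ 2 - x' * q ^ 2) : T (x * x') := by
  obtain ⟨a, ha, hax, hsq⟩ := H.repr hτ hns hx hxT h
  obtain ⟨a', ha', hax', hsq'⟩ := H.repr hτ hns hx' hxT' h'
  have hτ0 := H.ne hτ
  have hcns : ¬ IsSquare (c * τ) := fun h3 => H.not_sq_c ha (sq_mul hτ0 h3 hsq)
  obtain ⟨y, hy, hyT, hrep⟩ := H.h1 τ x hτ hns hcns hx hxT h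
  obtain ⟨b, hb, hby, hsqb⟩ := H.repr (H.mul H.tc hτ) hcns hy hyT hrep
  have key : ∀ {a x : F}, Sml T a → T (a * x) → IsSquare (τ * (1 - a)) → T (x * b) := by
    intro a x ha hax hsq
    have h3 : T (a * b) := by
      by_contra hcon
      apply H.l4 ha hb hcon
      have h4 : IsSquare ((1 - a) * τ) := by rwa [mul_comm]
      have h5 : IsSquare (τ * (c * (1 - b))) := by
        have e : τ * (c * (1 - b)) = c * τ * (1 - b) := by ring
        rwa [e]
      have h6 := sq_mul hτ0 h4 h5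
      have e : (1 - a) * (c * (1 - b)) = c * ((1 - a) * (1 - b)) := by ring
      rwa [e] at h6
    have h4 : T (x * a) := by rwa [mul_comm]
    exact H.trans h4 h3
  have h3 := key ha hax hsq
  have h4 := key ha' hax' hsq'
  rw [mul_comm] at h4
  exact H.trans h3 h4

/-- The partner of a small element. -/
theorem partner {a : F} (ha : Sml T a) (hns : ¬ IsSquare (1 - a)) :
    ∃ a' γ, Sml T a' ∧ T (a' * a) ∧ γ = -(a * a') / (1 - a) ∧ T γ ∧ IsSquare (c * (1 - γ)) := by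
  obtain ⟨y, hy, hyT, hrep⟩ := H.h1 (1 - a) a ha.2.2 hns (H.not_sq_c ha) ha.1 ha.2.1
    ⟨1, 1, by ring⟩
  obtain ⟨b, hb, hby, hsqb⟩ := H.repr (H.mul H.tc ha.2.2) (H.not_sq_c ha) hy hyT hrep
  have h1a : (1 - a) ≠ 0 := H.ne ha.2.2
  have ha0 := ha.1
  have hab : T (a * b) := by
    by_contra hcon
    apply H.l4 ha hb hcon
    have e : c * (1 - a) * (1 - b) = c * ((1 - a) * (1 - b)) := by ring
    rwa [e] at hsqb
  have hθ : T (b / a) := by
    rw [H.div_iff ha.1, mul_comm]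
    exact hab
  have e1 : -(a * (1 - b / a)) / (1 - a) = (b - a) / (1 - a) := by
    field_simp; ring
  have hba : b - a ≠ 0 := by
    intro h3
    have h4 : b = a := by linear_combination h3
    rw [h4] at hsqb
    apply H.cns
    obtain ⟨r, hr⟩ := hsqb
    refine ⟨r / (1 - a), ?_⟩
    have e : c = c * (1 - a) * (1 - a) / (1 - a) ^ 2 := by field_simp
    rw [e, hr]
    field_simp
  have hγ0 : -(a * (1 - b / a)) / (1 - a) ≠ 0 := by
    rw [e1]
    exact div_ne_zero hba h1a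
  have hsq : IsSquare (c * (1 - -(a * (1 - b / a)) / (1 - a))) := by
    obtain ⟨r, hr⟩ := hsqb
    refine ⟨r / (1 - a), ?_⟩
    have e : c * (1 - -(a * (1 - b / a)) / (1 - a)) = c * (1 - a) * (1 - b) / (1 - a) ^ 2 := by
      field_simp; ring
    rw [e, hr]
    field_simp
  have hγT := H.of_sq hγ0 hsq
  have haa : T ((1 - b / a) * a) := by
    have h3 := H.neg' (H.mul hγT ha.2.2)
    have e : -(-(a * (1 - b / a)) / (1 - a) * (1 - a)) = (1 - b / a) * a := by field_simp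
    rwa [e] at h3
  refine ⟨1 - b / a, _, ⟨left_ne_zero_of_mul (H.ne haa), fun h => ha.2.1 (H.of_mul h haa), ?_⟩,
    haa, rfl, hγT, hsq⟩
  have e : 1 - (1 - b / a) = b / a := by ring
  rw [e]
  exact hθ

/-- The key fact. -/
theorem hash {γ w : F} (hγ : T γ) (hsq : IsSquare (c * (1 - γ))) (hw : Sml T w)
    (hs : IsSquare (1 - w)) : ¬ Sml T (γ / w) := by
  intro h
  obtain ⟨s, hs⟩ := hs
  obtain ⟨r, hr⟩ := hsq
  have hc := H.c0
  have hw0 := hw.1
  have h3 : γ - w ≠ 0 := by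
    intro h4
    apply hw.2.1
    have : w = γ := by linear_combination -h4
    rwa [this]
  have h4 : T (γ - w) := by
    rw [H.cT]
    refine ⟨h3, s, r / c, ?_⟩
    field_simp
    linear_combination c * hs - hr
  have h5 := H.neg' (H.div h4 h.2.2)
  have h6 : (1 - γ / w) ≠ 0 := H.ne h.2.2
  have e : -((γ - w) / (1 - γ / w)) = w := by
    have h7 : w - γ ≠ 0 := by
      intro h8; apply h3; linear_combination -h8
    field_simp
    ring
  rw [e] at h5
  exact hw.2.1 h5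

end CSet

end Pool.Agent.KRad
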